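import Pool.Agent.H567R2.MNF.M2
import Pool.Agent.H567R2.MO.Defs

/-!
# AT2: the infimum over `g` is attained
-/

set_option autoImplicit false

open MeasureTheory

namespace H567MM

theorem AT2_aux_countable {K V : Type*} [Field K] [AddCommGroup V] [Module K V]
    [FiniteDimensional K V] [Countable V] : Countable (Submodule K V) := by
  have hs : Function.Surjective (fun S : Finset V => Submodule.span K (S : Set V)) := by
    intro N
    obtain ⟨S, hS⟩ := IsNoetherian.noetherian (R := K) (M := V) N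
    exact ⟨S, hS⟩
  exact hs.countable

theorem AT2_aux_eq {K V : Type*} [Field K] [AddCommGroup V] [Module K V]
    {W : Submodule K (V × V)} (hW : W ∈ G2 (K := K) (V := V)) {g g' : V ≃ₗ[K] V}
    (h : W.map (LinearMap.prodMap (LinearMap.id : V →ₗ[K] V) (g : V →ₗ[K] V)) =
      W.map (LinearMap.prodMap (LinearMap.id : V →ₗ[K] V) (g' : V →ₗ[K] V))) :
    W.map (LinearMap.snd K V V) ≤ LinearMap.eqLocus (g : V →ₗ[K] V) (g' : V →ₗ[K] V) := by
  rintro y ⟨⟨x, y'⟩, hxy, rfl⟩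
  have h1 : ((x, g y') : V × V) ∈
      W.map (LinearMap.prodMap (LinearMap.id : V →ₗ[K] V) (g : V →ₗ[K] V)) := ⟨(x, y'), hxy, rfl⟩
  rw [h] at h1
  obtain ⟨⟨a, b⟩, hab, he⟩ := h1
  have he1 : a = x := congrArg Prod.fst he
  have he2 : g' b = g y' := congrArg Prod.snd he
  have h2 : ((0 : V), b - y') ∈ W := by
    have := W.sub_mem hab hxy
    rw [he1] at this
    simpa using this
  have h3 := (hW (b - y')).2 h2
  have h4 : b = y' := sub_eq_zero.1 h3
  rw [h4] at he2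
  exact he2.symm

theorem AT2_aux_map {K V : Type*} [Field K] [AddCommGroup V] [Module K V]
    {W : Submodule K (V × V)} {g g' : V ≃ₗ[K] V}
    (h : W.map (LinearMap.snd K V V) ≤ LinearMap.eqLocus (g : V →ₗ[K] V) (g' : V →ₗ[K] V)) :
    W.map (LinearMap.prodMap (LinearMap.id : V →ₗ[K] V) (g : V →ₗ[K] V)) =
      W.map (LinearMap.prodMap (LinearMap.id : V →ₗ[K] V) (g' : V →ₗ[K] V)) := by
  apply SetLike.coe_injective
  rw [Submodule.map_coe, Submodule.map_coe]
  refine Set.image_congr fun w hw => ?_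
  have h1 : (g : V →ₗ[K] V) w.2 = (g' : V →ₗ[K] V) w.2 := h ⟨w, hw, rfl⟩
  exact Prod.ext rfl h1

theorem AT2_aux_eta {ι : Type*} (t : Finset ι) (m : ι → ℝ) (hm : ∀ i ∈ t, 0 < m i) :
    ∃ η : ℝ, 0 < η ∧ ∀ i ∈ t, η ≤ m i := by
  classical
  induction t using Finset.induction_on with
  | empty => exact ⟨1, one_pos, by simp⟩
  | insert a s _ ih =>
    obtain ⟨η, h1, h2⟩ := ih fun i hi => hm i (Finset.mem_insert_of_mem hi)
    refine ⟨min η (m a), lt_min h1 (hm a (Finset.mem_insert_self _ _)), fun i hi => ?_⟩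
    rcases Finset.mem_insert.1 hi with h | h
    · rw [h]
      exact min_le_right _ _
    · exact (min_le_left _ _).trans (h2 i h)

theorem attained {X K V : Type*} [MeasurableSpace X] (μ : Measure X) [IsProbabilityMeasure μ]
    [Field K] [AddCommGroup V] [Module K V] [FiniteDimensional K V] [Countable V]
    (F₁ F₂ : X → Finset (Submodule K (V × V))) (f : ℕ) (h1 : ∀ w, MeasurableSet {a | F₁ a = w})
    (h2 : ∀ w, MeasurableSet {a | F₂ a = w}) (hf : ∀ a, (F₂ a).card ≤ f)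
    (hG1 : ∀ a, ∀ W ∈ F₁ a, W ∈ G2 (K := K) (V := V))
    (hG2 : ∀ a, ∀ W ∈ F₂ a, W ∈ G2 (K := K) (V := V))
    (h : ∀ ε : ℝ, 0 < ε → ∃ g : V ≃ₗ[K] V, μ.real {a | imF g (F₁ a) ≠ F₂ a} < ε) :
    ∃ g : V ≃ₗ[K] V, ∀ᵐ a ∂μ, imF g (F₁ a) = F₂ a := by
  classical
  have hcount : Countable (Submodule K (V × V)) := AT2_aux_countable
  -- the relevant subspaces
  set 𝒲 : Set (Submodule K (V × V)) := {W | μ {a | W ∈ F₁ a} ≠ 0} with h𝒲
  have h𝒲G : ∀ W ∈ 𝒲, W ∈ G2 (K := K) (V := V) := by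
    intro W hW
    obtain ⟨a, ha⟩ := nonempty_of_measure_ne_zero hW
    exact hG1 a W ha
  have hae : ∀ᵐ a ∂μ, ∀ W ∈ F₁ a, W ∈ 𝒲 := by
    have : ∀ᵐ a ∂μ, ∀ W : Submodule K (V × V), W ∈ F₁ a → W ∈ 𝒲 := by
      rw [ae_all_iff]
      intro W
      by_cases hW : W ∈ 𝒲
      · exact Filter.Eventually.of_forall fun _ _ => hW
      · have h0 : μ {a | W ∈ F₁ a} = 0 := by
          by_contra hcon
          exact hW hcon
        have h3 : ∀ᵐ a ∂μ, ¬ W ∈ F₁ a := by
          rw [ae_iff]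
          simpa using h0
        exact h3.mono fun a ha hc => absurd hc ha
    exact this
  set pr : Submodule K (V × V) → Submodule K V := fun W => W.map (LinearMap.snd K V V) with hpr
  -- finitely many of them suffice
  obtain ⟨t, ht, hsup⟩ := CompleteLattice.WellFoundedGT.isSupFiniteCompact (Submodule K V) (pr '' 𝒲)
  have htW : ∀ T ∈ t, ∃ W ∈ 𝒲, pr W = T := fun T hT => ht hT
  choose! w hw1 hw2 using htW
  have hagree : ∀ g g' : V ≃ₗ[K] V,
      (∀ T ∈ t, T ≤ LinearMap.eqLocus (g : V →ₗ[K] V) (g' : V →ₗ[K] V)) →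
      ∀ᵐ a ∂μ, imF g (F₁ a) = imF g' (F₁ a) := by
    intro g g' hgg
    refine hae.mono fun a ha => ?_
    unfold imF
    refine Finset.image_congr fun W hW => ?_
    refine AT2_aux_map ?_
    have h3 : pr W ≤ sSup (pr '' 𝒲) := le_sSup ⟨W, ha W hW, rfl⟩
    rw [hsup] at h3
    exact h3.trans (Finset.sup_le hgg)
  -- eta
  obtain ⟨η, hη, hη'⟩ := AT2_aux_eta t (fun T => μ.real {a | w T ∈ F₁ a}) (fun T hT => by
    have h3 : μ {a | w T ∈ F₁ a} ≠ 0 := hw1 T hT
    exact ENNReal.toReal_pos h3 (measure_ne_top _ _))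
  set q : ℕ := f ^ t.card with hq
  set ε0 : ℝ := η / (q + 2) with hε0
  have hε0pos : 0 < ε0 := by positivity
  set D : (V ≃ₗ[K] V) → ℝ := fun g => μ.real {a | imF g (F₁ a) ≠ F₂ a} with hD
  set ρ : (V ≃ₗ[K] V) → (t → Submodule K (V × V)) := fun g T =>
    (w T.1).map (LinearMap.prodMap (LinearMap.id : V →ₗ[K] V) (g : V →ₗ[K] V)) with hρ
  have hfin : (ρ '' {g | D g < ε0}).Finite := by
    by_contra hinf
    obtain ⟨s, hs1, hs2⟩ := Set.Infinite.exists_subset_card_eq hinf (q + 1)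
    have hpre : ∀ r ∈ s, ∃ g, D g < ε0 ∧ ρ g = r := fun r hr => hs1 hr
    choose! gg hgg1 hgg2 using hpre
    have hpt : ∀ T ∈ t, ∃ a, w T ∈ F₁ a ∧ ∀ r ∈ s, imF (gg r) (F₁ a) = F₂ a := by
      intro T hT
      by_contra hcon
      push Not at hcon
      have hsub : {a | w T ∈ F₁ a} ⊆ ⋃ r ∈ s, {a | imF (gg r) (F₁ a) ≠ F₂ a} := by
        intro a ha
        obtain ⟨r, hr, hr'⟩ := hcon a ha
        exact Set.mem_biUnion hr hr'
      have h3 : μ.real {a | w T ∈ F₁ a} ≤ ∑ r ∈ s, μ.real {a | imF (gg r) (F₁ a) ≠ F₂ a} :=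
        (measureReal_mono hsub (measure_ne_top _ _)).trans (measureReal_biUnion_finset_le s _)
      have h4 : ∑ r ∈ s, μ.real {a | imF (gg r) (F₁ a) ≠ F₂ a} ≤ ∑ r ∈ s, ε0 :=
        Finset.sum_le_sum fun r hr => (hgg1 r hr).le
      rw [Finset.sum_const, hs2, nsmul_eq_mul] at h4
      have h5 := hη' T hT
      have h6 : ((q + 1 : ℕ) : ℝ) * ε0 < η := by
        rw [hε0]
        push_cast
        rw [mul_div_assoc', div_lt_iff₀ (by positivity)]
        nlinarith
      linarith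
    choose a ha1 ha2 using hpt
    have hsub : s ⊆ Fintype.piFinset (fun T : t => F₂ (a T.1 T.2)) := by
      intro r hr
      rw [Fintype.mem_piFinset]
      intro T
      rw [← hgg2 r hr, ← ha2 T.1 T.2 r hr]
      unfold imF
      exact Finset.mem_image_of_mem _ (ha1 T.1 T.2)
    have hcard := Finset.card_le_card hsub
    rw [hs2, Fintype.card_piFinset] at hcard
    have h7 : ∏ T : t, (F₂ (a T.1 T.2)).card ≤ ∏ _T : t, f := Finset.prod_le_prod' fun T _ => hf _
    rw [Finset.prod_const, Finset.card_univ, Fintype.card_coe] at h7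
    omega
  -- the values are finitely many
  have hval : ∀ g g' : V ≃ₗ[K] V, ρ g = ρ g' → D g = D g' := by
    intro g g' hgg
    have h3 := hagree g g' (fun T hT => by
      have h4 := congrFun hgg ⟨T, hT⟩
      have h5 := AT2_aux_eq (h𝒲G _ (hw1 T hT)) h4
      rw [← hw2 T hT]
      exact h5)
    refine measureReal_congr ?_
    refine h3.mono fun a ha => ?_
    show (imF g (F₁ a) ≠ F₂ a) = (imF g' (F₁ a) ≠ F₂ a)
    rw [ha]
  have hrep : ∀ r ∈ ρ '' {g | D g < ε0}, ∃ g, D g < ε0 ∧ ρ g = r := fun r hr => hr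
  choose! rep hrep1 hrep2 using hrep
  have hvals : (D '' {g | D g < ε0}).Finite := by
    refine (hfin.image (fun r => D (rep r))).subset ?_
    rintro _ ⟨g, hg, rfl⟩
    have hr : ρ g ∈ ρ '' {g | D g < ε0} := ⟨g, hg, rfl⟩
    exact ⟨ρ g, hr, hval _ _ (hrep2 _ hr)⟩
  obtain ⟨g1, hg1⟩ := h ε0 hε0pos
  obtain ⟨m, ⟨g0, hg0, rfl⟩, hmin⟩ := Set.exists_min_image (D '' {g | D g < ε0}) id hvals
    ⟨D g1, g1, hg1, rfl⟩
  have hg0lt : D g0 < ε0 := hg0
  refine ⟨g0, ?_⟩
  have hzero : D g0 = 0 := by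
    by_contra hne
    have hpos : 0 < D g0 := lt_of_le_of_ne measureReal_nonneg (Ne.symm hne)
    obtain ⟨g, hg⟩ := h (D g0) hpos
    have hg' : D g < D g0 := hg
    have h3 := hmin (D g) ⟨g, hg'.trans hg0lt, rfl⟩
    simp only [id] at h3
    linarith
  rw [ae_iff]
  exact (measureReal_eq_zero_iff).1 hzero

end H567MM
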