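import Pool.Agent.H567R2.MNF.M2
import Pool.Agent.H567R2.MO.Defs

/-!
# Task PE: ergodicity of the power of a mixing map, diagonal cocycles
-/

namespace H567MM

open MeasureTheory Filter Topology Set

theorem PE_aux_transport {X Y : Type*} [MeasurableSpace X] [MeasurableSpace Y] (μ : Measure X)
    (ν : Measure Y) (S : X → X) (T : Y → Y) (e : X ≃ᵐ Y) (he : MeasurePreserving e μ ν)
    (hc : ∀ x, e (S x) = T (e x)) (k : ℕ) (h : MixOrd ν T k) : MixOrd μ S k := by
  intro A hA ε hε
  obtain ⟨G, hG⟩ := h (fun j => e.symm ⁻¹' A j) (fun j => e.symm.measurable (hA j)) ε hε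
  refine ⟨G, fun n hn0 hn => ?_⟩
  have hcn : ∀ (n : ℕ) (x : X), e (S^[n] x) = T^[n] (e x) := by
    intro n
    induction n with
    | zero => intro x; rfl
    | succ n ih =>
      intro x
      rw [Function.iterate_succ_apply, Function.iterate_succ_apply, ih, hc]
  have hm : ∀ B : Set Y, μ.real (e ⁻¹' B) = ν.real B := by
    intro B
    rw [measureReal_def, measureReal_def, he.measure_preimage_equiv]
  have h1 : (⋂ j, S^[n j] ⁻¹' A j) = e ⁻¹' (⋂ j, T^[n j] ⁻¹' (e.symm ⁻¹' A j)) := by
    ext x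
    simp only [mem_iInter, mem_preimage]
    constructor
    · intro hx j
      rw [← hcn, MeasurableEquiv.symm_apply_apply]
      exact hx j
    · intro hx j
      have := hx j
      rw [← hcn, MeasurableEquiv.symm_apply_apply] at this
      exact this
  have h2 : ∀ j, μ.real (A j) = ν.real (e.symm ⁻¹' A j) := by
    intro j
    rw [← hm]
    congr 1
    ext x
    simp only [mem_preimage, MeasurableEquiv.symm_apply_apply]
  rw [h1, hm, Finset.prod_congr rfl fun j _ => h2 j]
  exact hG n hn0 hn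

theorem PE_aux_zero {X : Type*} [MeasurableSpace X] [Subsingleton X] (μ : Measure X)
    [IsProbabilityMeasure μ] (S : X → X) : MixOrd μ S 1 := by
  intro A hA ε hε
  refine ⟨0, fun n _ _ => ?_⟩
  have h1 : ∀ (n : ℕ) (B : Set X), S^[n] ⁻¹' B = B := by
    intro n B
    ext x
    rw [mem_preimage, Subsingleton.elim (S^[n] x) x]
  have h2 : (⋂ j, S^[n j] ⁻¹' A j) = A 0 ∩ A 1 := by
    ext x
    simp only [h1, mem_iInter, mem_inter_iff]
    exact Fin.forall_fin_two
  rw [h2, Fin.prod_univ_two]
  rcases Set.eq_empty_or_nonempty (A 0) with h0 | ⟨x, hx⟩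
  · rw [h0, empty_inter]
    simpa using hε
  · have h3 : A 0 = univ := by
      ext y
      simp only [mem_univ, iff_true]
      rw [Subsingleton.elim y x]
      exact hx
    rw [h3, univ_inter]
    simpa using hε

theorem PE_aux_mix {X : Type*} [MeasurableSpace X] (μ : Measure X) [IsProbabilityMeasure μ]
    (S : X → X) (hS : MeasurePreserving S μ μ) (hmix : MixOrd μ S 1) (s : ℕ) :
    MeasurePreserving (fun (y : Fin s → X) j => S (y j)) (Measure.pi fun _ : Fin s => μ)
      (Measure.pi fun _ : Fin s => μ) ∧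
    MixOrd (Measure.pi fun _ : Fin s => μ) (fun (y : Fin s → X) j => S (y j)) 1 := by
  refine ⟨measurePreserving_pi _ _ fun _ => hS, ?_⟩
  induction s with
  | zero => exact PE_aux_zero _ _
  | succ s ih =>
    have he := measurePreserving_piFinSuccAbove (fun _ : Fin (s + 1) => μ) 0
    refine PE_aux_transport _ (μ.prod (Measure.pi fun _ : Fin s => μ)) _
      (Prod.map S (fun (y : Fin s → X) j => S (y j)))
      (MeasurableEquiv.piFinSuccAbove (fun _ => X) 0) he ?_ 1
      (mix_prod μ _ S _ hS (measurePreserving_pi _ _ fun _ => hS) hmix ih)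
    intro x
    rfl

/-- PE -/
theorem pi_ergodic {X : Type*} [MeasurableSpace X] (μ : Measure X) [IsProbabilityMeasure μ]
    (S : X → X) (hS : MeasurePreserving S μ μ) (hmix : MixOrd μ S 1) (s : ℕ) :
    Ergodic (fun (y : Fin s → X) j => S (y j)) (Measure.pi fun _ : Fin s => μ) := by
  obtain ⟨h1, h2⟩ := PE_aux_mix μ S hS hmix s
  exact ergodic_of_mix _ _ h1 h2

/-- PE -/
theorem piC_meas {X K V : Type*} [MeasurableSpace X] [Field K] [AddCommGroup V] [Module K V]
    (φ : X → (V ≃ₗ[K] V)) (hφ : ∀ v v' : V, MeasurableSet {x | φ x v = v'}) (s : ℕ)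
    (u u' : Fin s → V) : MeasurableSet {y : Fin s → X | piC φ y u = u'} := by
  have h1 : {y : Fin s → X | piC φ y u = u'} = ⋂ j, (fun y : Fin s → X => y j) ⁻¹'
      {x | φ x (u j) = u' j} := by
    ext y
    simp only [mem_setOf_eq, mem_iInter, mem_preimage, funext_iff]
    rfl
  rw [h1]
  exact MeasurableSet.iInter fun j => measurable_pi_apply j (hφ _ _)

theorem PE_aux_iter {X : Type*} (S : X → X) (s n : ℕ) (y : Fin s → X) (j : Fin s) :
    (fun (y : Fin s → X) j => S (y j))^[n] y j = S^[n] (y j) := by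
  induction n generalizing y with
  | zero => rfl
  | succ n ih =>
    rw [Function.iterate_succ_apply, Function.iterate_succ_apply, ih]

/-- PE -/
theorem piC_coc {X K V : Type*} [Field K] [AddCommGroup V] [Module K V] (S : X → X)
    (φ : X → (V ≃ₗ[K] V)) (s n : ℕ) (y : Fin s → X) (u : Fin s → V) (j : Fin s) :
    coc (fun (y : Fin s → X) j => S (y j)) (piC φ) n y u j = coc S φ n (y j) (u j) := by
  induction n generalizing u with
  | zero => rfl
  | succ n ih =>
    show (coc (fun (y : Fin s → X) j => S (y j)) (piC φ) n y)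
      (piC φ ((fun (y : Fin s → X) j => S (y j))^[n] y) u) j =
      (coc S φ n (y j)) (φ (S^[n] (y j)) (u j))
    rw [ih]
    show (coc S φ n (y j)) (φ ((fun (y : Fin s → X) j => S (y j))^[n] y j) (u j)) = _
    rw [PE_aux_iter]

/-- PE -/
theorem prC_coc {X K V : Type*} [Field K] [AddCommGroup V] [Module K V] (S : X → X)
    (φ : X → (V ≃ₗ[K] V)) (n : ℕ) (z : X × X) (u : V × V) :
    coc (Prod.map S S) (prC φ) n z u = (coc S φ n z.1 u.1, coc S φ n z.2 u.2) := by
  induction n generalizing u with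
  | zero => rfl
  | succ n ih =>
    show (coc (Prod.map S S) (prC φ) n z) (prC φ ((Prod.map S S)^[n] z) u) = _
    rw [ih, Prod.map_iterate]
    rfl

/-- PE -/
theorem prC_meas {X K V : Type*} [MeasurableSpace X] [Field K] [AddCommGroup V] [Module K V]
    (φ : X → (V ≃ₗ[K] V)) (hφ : ∀ v v' : V, MeasurableSet {x | φ x v = v'})
    (u u' : V × V) : MeasurableSet {z : X × X | prC φ z u = u'} := by
  have h1 : {z : X × X | prC φ z u = u'} = (Prod.fst ⁻¹' {x | φ x u.1 = u'.1}) ∩
      (Prod.snd ⁻¹' {x | φ x u.2 = u'.2}) := by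
    ext z
    simp only [mem_setOf_eq, mem_inter_iff, mem_preimage, Prod.ext_iff]
    rfl
  rw [h1]
  exact (measurable_fst (hφ _ _)).inter (measurable_snd (hφ _ _))

/-- PE -/
theorem GP_props {X K V : Type*} [Field K] [AddCommGroup V] [Module K V]
    (φ : X → (V ≃ₗ[K] V)) (s : ℕ) :
    (∀ W ∈ GP (K := K) (V := V) s, ∀ W' ≤ W, W' ∈ GP (K := K) (V := V) s) ∧
    ∀ (y : Fin s → X) (W : Submodule K (Fin s → V)), W ∈ GP (K := K) (V := V) s ↔
      W.map (piC φ y : (Fin s → V) →ₗ[K] (Fin s → V)) ∈ GP (K := K) (V := V) s := by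
  refine ⟨fun W hW W' hle j v hv => hW j v (hle hv), fun y W => ?_⟩
  have hs : ∀ (j : Fin s) (v : V), piC φ y (Pi.single j v) = Pi.single j (φ (y j) v) := by
    intro j v
    funext i
    show φ (y i) ((Pi.single j v : Fin s → V) i) = (Pi.single j (φ (y j) v) : Fin s → V) i
    by_cases hij : i = j
    · subst hij
      rw [Pi.single_eq_same, Pi.single_eq_same]
    · rw [Pi.single_eq_of_ne hij, Pi.single_eq_of_ne hij, map_zero]
  have hmem : ∀ (j : Fin s) (v : V), (Pi.single j (φ (y j) v) : Fin s → V) ∈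
      W.map (piC φ y : (Fin s → V) →ₗ[K] (Fin s → V)) ↔ (Pi.single j v : Fin s → V) ∈ W := by
    intro j v
    rw [← hs, Submodule.mem_map]
    constructor
    · rintro ⟨w, hw, hw2⟩
      have : w = Pi.single j v := (piC φ y).injective hw2
      rw [← this]
      exact hw
    · intro h
      exact ⟨_, h, rfl⟩
  constructor
  · intro hW j v hv
    obtain ⟨v', rfl⟩ := (φ (y j)).surjective v
    rw [hmem] at hv
    rw [hW j v' hv, map_zero]
  · intro hW j v hv
    rw [← hmem] at hv
    have := hW j _ hv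
    exact (LinearEquiv.map_eq_zero_iff _).1 this

/-- PE -/
theorem G2_props {X K V : Type*} [Field K] [AddCommGroup V] [Module K V]
    (φ : X → (V ≃ₗ[K] V)) :
    (∀ W ∈ G2 (K := K) (V := V), ∀ W' ≤ W, W' ∈ G2 (K := K) (V := V)) ∧
    ∀ (z : X × X) (W : Submodule K (V × V)), W ∈ G2 (K := K) (V := V) ↔
      W.map (prC φ z : (V × V) →ₗ[K] (V × V)) ∈ G2 (K := K) (V := V) := by
  refine ⟨fun W hW W' hle v => ⟨fun h => (hW v).1 (hle h), fun h => (hW v).2 (hle h)⟩,
    fun z W => ?_⟩
  have hmem : ∀ w : V × V, (φ z.1 w.1, φ z.2 w.2) ∈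
      W.map (prC φ z : (V × V) →ₗ[K] (V × V)) ↔ w ∈ W := by
    intro w
    have e : (φ z.1 w.1, φ z.2 w.2) = prC φ z w := rfl
    rw [e, Submodule.mem_map]
    constructor
    · rintro ⟨w', hw, hw2⟩
      have : w' = w := (prC φ z).injective hw2
      rw [← this]
      exact hw
    · intro h
      exact ⟨_, h, rfl⟩
  constructor
  · intro hW v
    constructor
    · intro hv
      obtain ⟨v', rfl⟩ := (φ z.1).surjective v
      have h1 := (hmem (v', 0)).1 (by simpa using hv)
      rw [(hW v').1 h1, map_zero]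
    · intro hv
      obtain ⟨v', rfl⟩ := (φ z.2).surjective v
      have h1 := (hmem (0, v')).1 (by simpa using hv)
      rw [(hW v').2 h1, map_zero]
  · intro hW v
    constructor
    · intro hv
      have h1 := (hmem (v, 0)).2 hv
      have h2 := (hW (φ z.1 v)).1 (by simpa using h1)
      exact (LinearEquiv.map_eq_zero_iff _).1 h2
    · intro hv
      have h1 := (hmem (0, v)).2 hv
      have h2 := (hW (φ z.2 v)).2 (by simpa using h1)
      exact (LinearEquiv.map_eq_zero_iff _).1 h2

end H567MM
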