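import Pool.Agent.H567R2.MNF.M2
import Pool.Agent.H567R2.MO.Defs

/-! PM: skew products with permutations of a countable set; fibre cardinality. -/

namespace H567MM

open MeasureTheory Filter Topology

theorem PM_aux_count {κ : Type*} [MeasurableSpace κ] [DiscreteMeasurableSpace κ] (f : κ ≃ κ) :
    Measure.map f (Measure.count : Measure κ) = Measure.count := by
  ext s hs
  rw [Measure.map_apply Measurable.of_discrete hs, Measure.count_apply MeasurableSet.of_discrete,
    Measure.count_apply hs, Set.encard_preimage_of_bijective f.bijective]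

/-- PM -/
theorem perm_mp {Ω κ : Type*} [MeasurableSpace Ω] (P : Measure Ω) [IsProbabilityMeasure P]
    (S : Ω → Ω) (hS : MeasurePreserving S P P)
    [Countable κ] [MeasurableSpace κ] [DiscreteMeasurableSpace κ] (e : Ω → (κ ≃ κ))
    (he : ∀ q q', MeasurableSet {ω | e ω q = q'}) :
    MeasurePreserving (fun z : Ω × κ => (S z.1, (e z.1).symm z.2)) (P.prod Measure.count)
      (P.prod Measure.count) := by
  have hm : Measurable (Function.uncurry fun (ω : Ω) (q : κ) => (e ω).symm q) := by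
    refine measurable_to_countable' fun q' => ?_
    have h1 : (Function.uncurry fun (ω : Ω) (q : κ) => (e ω).symm q) ⁻¹' {q'} =
        ⋃ q : κ, {ω | e ω q' = q} ×ˢ {q} := by
      ext ⟨ω, q⟩
      simp only [Set.mem_preimage, Function.uncurry_apply_pair, Set.mem_singleton_iff,
        Set.mem_iUnion, Set.mem_prod, Set.mem_ofPred_eq]
      constructor
      · intro h
        exact ⟨q, by rw [← h, Equiv.apply_symm_apply], rfl⟩
      · rintro ⟨r, h2, rfl⟩
        rw [← h2, Equiv.symm_apply_apply]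
    rw [h1]
    exact MeasurableSet.iUnion fun q => (he q' q).prod (measurableSet_singleton q)
  exact hS.skew_product hm (ae_of_all _ fun ω => PM_aux_count (e ω).symm)

/-- PM -/
theorem perm_card {Ω κ : Type*} [MeasurableSpace Ω] (P : Measure Ω) [IsProbabilityMeasure P]
    (S : Ω → Ω) (hS : Ergodic S P)
    [Countable κ] [MeasurableSpace κ] [DiscreteMeasurableSpace κ] (e : Ω → (κ ≃ κ))
    (B : Set (Ω × κ)) (hB : MeasurableSet B) (hfin : (P.prod Measure.count) B ≠ ⊤)
    (hinv : ∀ᵐ ω ∂P, ∀ q : κ, ((ω, q) ∈ B ↔ (S ω, (e ω).symm q) ∈ B)) :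
    ∃ f : ℕ, ∀ᵐ ω ∂P, {q | (ω, q) ∈ B}.encard ≤ f := by
  have hNm : Measurable fun ω => (Measure.count : Measure κ) (Prod.mk ω ⁻¹' B) :=
    measurable_measure_prodMk_left hB
  have hN : ∀ ω, (Measure.count : Measure κ) (Prod.mk ω ⁻¹' B) = {q | (ω, q) ∈ B}.encard := by
    intro ω
    rw [Measure.count_apply MeasurableSet.of_discrete]
    rfl
  have hlt : ∀ᵐ ω ∂P, (Measure.count : Measure κ) (Prod.mk ω ⁻¹' B) < ⊤ := by
    rw [Measure.prod_apply hB] at hfin
    exact ae_lt_top hNm hfin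
  have hSN : ∀ᵐ ω ∂P, (Measure.count : Measure κ) (Prod.mk (S ω) ⁻¹' B) =
      (Measure.count : Measure κ) (Prod.mk ω ⁻¹' B) := by
    filter_upwards [hinv] with ω hω
    rw [hN, hN]
    have h1 : {q | (ω, q) ∈ B} = (e ω).symm ⁻¹' {q | (S ω, q) ∈ B} := by
      ext q
      exact hω q
    rw [h1, Set.encard_preimage_of_bijective (e ω).symm.bijective]
  obtain ⟨c, hc⟩ := hS.ae_eq_const_of_ae_eq_comp_ae hNm.aestronglyMeasurable hSN
  have hex : ∃ ω, (Measure.count : Measure κ) (Prod.mk ω ⁻¹' B) = c ∧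
      (Measure.count : Measure κ) (Prod.mk ω ⁻¹' B) < ⊤ := by
    have h1 := hc.and hlt
    exact h1.exists
  obtain ⟨ω₀, h1, h2⟩ := hex
  rw [hN] at h1 h2
  have h3 : {q | (ω₀, q) ∈ B}.encard ≠ ⊤ := by
    intro h
    rw [h] at h2
    simp at h2
  obtain ⟨f, hf⟩ := ENat.ne_top_iff_exists.1 h3
  refine ⟨f, ?_⟩
  filter_upwards [hc] with ω hω
  have h4 : (Measure.count : Measure κ) (Prod.mk ω ⁻¹' B) = c := hω
  rw [hN, ← h1, ← hf] at h4
  have h5 : {q | (ω, q) ∈ B}.encard = (f : ℕ∞) := by exact_mod_cast h4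
  exact h5.le

end H567MM
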