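import Pool.Agent.H567R2.MNF.M2
import Pool.Agent.H567R2.MO.Defs

/-!
Task WI: windows.
-/

namespace H567MM

open Classical in
/-- WI -/
theorem windows (D : Finset ℕ) (M L : ℕ) (hL : 0 < L) (hD : D ⊆ Finset.range M) (c : ℝ)
    (hc : 0 < c) (h : c * M ≤ D.card) :
    (c / 2) * ((M / L : ℕ) : ℝ) - 1 ≤ ((Finset.range (M / L)).filter (fun i => (c / 2) * L ≤
      (((D.filter (fun t => i * L ≤ t ∧ t < (i + 1) * L)).card : ℕ) : ℝ))).card := by
  set q : ℕ := M / L with hq
  set n : ℕ → ℕ := fun i => (D.filter (fun t => i * L ≤ t ∧ t < (i + 1) * L)).card with hn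
  have hqL : q * L ≤ M := Nat.div_mul_le_self M L
  have hMq : M < (q + 1) * L := by
    have h1 := Nat.lt_div_mul_add (a := M) hL
    rw [← hq] at h1
    linarith [h1]
  have hL' : (0 : ℝ) < (L : ℝ) := by exact_mod_cast hL
  have hnL : ∀ i, n i ≤ L := by
    intro i
    have h1 : D.filter (fun t => i * L ≤ t ∧ t < (i + 1) * L) ⊆
        Finset.Ico (i * L) ((i + 1) * L) := by
      intro t ht
      exact Finset.mem_Ico.mpr (Finset.mem_filter.mp ht).2
    have h2 := Finset.card_le_card h1
    rw [Nat.card_Ico] at h2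
    have h3 : (i + 1) * L - i * L = L := by
      rw [Nat.add_mul, one_mul, Nat.add_sub_cancel_left]
    rw [h3] at h2
    exact h2
  have hsub : D ⊆ (Finset.range q).biUnion
      (fun i => D.filter (fun t => i * L ≤ t ∧ t < (i + 1) * L)) ∪ Finset.Ico (q * L) M := by
    intro t ht
    have htM : t < M := Finset.mem_range.mp (hD ht)
    by_cases hlt : t < q * L
    · refine Finset.mem_union_left _ (Finset.mem_biUnion.mpr ⟨t / L, ?_, ?_⟩)
      · exact Finset.mem_range.mpr ((Nat.div_lt_iff_lt_mul hL).mpr hlt)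
      · refine Finset.mem_filter.mpr ⟨ht, Nat.div_mul_le_self t L, ?_⟩
        have h1 := Nat.lt_div_mul_add (a := t) hL
        linarith [h1]
    · exact Finset.mem_union_right _ (Finset.mem_Ico.mpr ⟨not_lt.mp hlt, htM⟩)
  have hcard : D.card ≤ (∑ i ∈ Finset.range q, n i) + L := by
    refine (Finset.card_le_card hsub).trans ((Finset.card_union_le _ _).trans ?_)
    refine Nat.add_le_add Finset.card_biUnion_le ?_
    rw [Nat.card_Ico]
    have : (q + 1) * L = q * L + L := by ring
    omega
  set g : ℕ := ((Finset.range q).filter (fun i => (c / 2) * L ≤ ((n i : ℕ) : ℝ))).card with hg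
  have hsum : ((∑ i ∈ Finset.range q, n i : ℕ) : ℝ) ≤ g * L + q * ((c / 2) * L) := by
    push_cast
    rw [← Finset.sum_filter_add_sum_filter_not (Finset.range q)
      (fun i => (c / 2) * L ≤ ((n i : ℕ) : ℝ))]
    refine add_le_add ?_ ?_
    · calc ∑ i ∈ (Finset.range q).filter (fun i => (c / 2) * L ≤ ((n i : ℕ) : ℝ)), (n i : ℝ)
          ≤ ∑ _i ∈ (Finset.range q).filter (fun i => (c / 2) * L ≤ ((n i : ℕ) : ℝ)), (L : ℝ) :=
            Finset.sum_le_sum fun i _ => by exact_mod_cast hnL i
        _ = g * L := by rw [Finset.sum_const, nsmul_eq_mul, hg]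
    · calc ∑ i ∈ (Finset.range q).filter (fun i => ¬ (c / 2) * L ≤ ((n i : ℕ) : ℝ)), (n i : ℝ)
          ≤ ∑ _i ∈ (Finset.range q).filter (fun i => ¬ (c / 2) * L ≤ ((n i : ℕ) : ℝ)),
              ((c / 2) * L) := by
            refine Finset.sum_le_sum fun i hi => ?_
            exact (not_le.mp (Finset.mem_filter.mp hi).2).le
        _ = (((Finset.range q).filter
              (fun i => ¬ (c / 2) * L ≤ ((n i : ℕ) : ℝ))).card : ℝ) * ((c / 2) * L) := by
            rw [Finset.sum_const, nsmul_eq_mul]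
        _ ≤ q * ((c / 2) * L) := by
            refine mul_le_mul_of_nonneg_right ?_ (by positivity)
            have := Finset.card_filter_le (Finset.range q)
              (fun i => ¬ (c / 2) * L ≤ ((n i : ℕ) : ℝ))
            rw [Finset.card_range] at this
            exact_mod_cast this
  have hcard' : (D.card : ℝ) ≤ ((∑ i ∈ Finset.range q, n i : ℕ) : ℝ) + L := by
    exact_mod_cast hcard
  have hqL' : (q : ℝ) * L ≤ M := by exact_mod_cast hqL
  have h1 : c * ((q : ℝ) * L) ≤ c * M := mul_le_mul_of_nonneg_left hqL' hc.le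
  have h2 : (c * q) * L ≤ (g + q * (c / 2) + 1) * L := by
    calc (c * q) * L = c * ((q : ℝ) * L) := by ring
      _ ≤ (D.card : ℝ) := h1.trans h
      _ ≤ _ := hcard'
      _ ≤ (g * L + q * ((c / 2) * L)) + L := by linarith
      _ = _ := by ring
  have h3 := le_of_mul_le_mul_right h2 hL'
  linarith

end H567MM
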