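import Pool.Agent.H567R2.MNF.M2
import Pool.Agent.H567R2.MO.Defs
import Pool.Agent.H567R2.MOF.PM
import Pool.Agent.H567R2.MOF.LA

/-! KH: quantitative recurrence into a finite set of subspaces. -/

namespace H567MM

open MeasureTheory Filter Topology

/-- mean ergodic theorem on an invariant set of finite measure -/
theorem KH_mean {Y : Type*} [MeasurableSpace Y] (m : Measure Y) (τ : Y → Y)
    (hτ : MeasurePreserving τ m m) (A B : Set Y) (hA : MeasurableSet A) (hB : MeasurableSet B)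
    (hBfin : m B ≠ ⊤) (hAB : A ⊆ B) (hinv : ∀ᵐ z ∂m, (τ z ∈ B ↔ z ∈ B)) (hA0 : m A ≠ 0) :
    ∃ c : ℝ, 0 < c ∧ ∀ᶠ N : ℕ in atTop,
      c * N ≤ ∑ n ∈ Finset.range N, m.real (A ∩ τ^[n] ⁻¹' A) := by
  have hmA : m A ≠ ⊤ := ne_top_of_le_ne_top hBfin (measure_mono hAB)
  set U : Lp ℝ 2 m →L[ℝ] Lp ℝ 2 m :=
    (Lp.compMeasurePreservingₗᵢ ℝ τ hτ).toContinuousLinearMap with hU
  have hUn : ‖U‖ ≤ 1 := LinearIsometry.norm_toContinuousLinearMap_le _
  set e : Lp ℝ 2 m := indicatorConstLp 2 hA hmA (1 : ℝ) with he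
  set b : Lp ℝ 2 m := indicatorConstLp 2 hB hBfin (1 : ℝ) with hb
  have hUc : ∀ f, U f = Lp.compMeasurePreserving τ hτ f := fun f => rfl
  have hUit : ∀ n : ℕ, (⇑U)^[n] e = Lp.compMeasurePreserving τ^[n] (hτ.iterate n) e := by
    intro n
    rw [← Lp.compMeasurePreserving_iterate hτ n]
    rfl
  have hin : ∀ n : ℕ, inner ℝ e ((⇑U)^[n] e) = m.real (A ∩ τ^[n] ⁻¹' A) := by
    intro n
    rw [hUit n, he, Lp.indicatorConstLp_compMeasurePreserving hA hmA (1 : ℝ) (hτ.iterate n),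
      L2.real_inner_indicatorConstLp_one_indicatorConstLp_one hA
        (hA.preimage (hτ.iterate n).measurable) hmA
        (by rw [(hτ.iterate n).measure_preimage hA.nullMeasurableSet]; exact hmA)]
  have hlim := U.tendsto_birkhoffAverage_orthogonalProjection hUn e
  set hp := (U.eqLocus (1 : Lp ℝ 2 m →L[ℝ] Lp ℝ 2 m)).orthogonalProjectionOnto e with hpdef
  have hlim2 : Tendsto (fun N : ℕ => inner ℝ e (birkhoffAverage ℝ U _root_.id N e)) atTop
      (𝓝 (inner ℝ e (hp : Lp ℝ 2 m))) := tendsto_const_nhds.inner hlim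
  have hav : ∀ N : ℕ, inner ℝ e (birkhoffAverage ℝ U _root_.id N e) =
      (N : ℝ)⁻¹ * ∑ n ∈ Finset.range N, m.real (A ∩ τ^[n] ⁻¹' A) := by
    intro N
    rw [birkhoffAverage, birkhoffSum, inner_smul_right, inner_sum]
    congr 1
    exact Finset.sum_congr rfl fun n _ => hin n
  -- `b` is fixed
  have hbfix : U b = b := by
    rw [hUc, hb, Lp.indicatorConstLp_compMeasurePreserving hB hBfin (1 : ℝ) hτ]
    rw [indicatorConstLp_inj] <;> try exact one_ne_zero
    filter_upwards [hinv] with z hz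
    exact propext hz
  have hbmem : b ∈ U.eqLocus (1 : Lp ℝ 2 m →L[ℝ] Lp ℝ 2 m) := by
    rw [LinearMap.mem_eqLocus]
    exact hbfix
  have hbe : inner ℝ b (hp : Lp ℝ 2 m) = m.real A := by
    have h1 := Submodule.inner_orthogonalProjectionOnto_eq_of_mem_left
      (K := U.eqLocus (1 : Lp ℝ 2 m →L[ℝ] Lp ℝ 2 m)) ⟨b, hbmem⟩ e
    rw [← hpdef] at h1
    have h2 : inner ℝ b (hp : Lp ℝ 2 m) = inner ℝ b e := h1
    rw [h2, hb, he, L2.real_inner_indicatorConstLp_one_indicatorConstLp_one hB hA hBfin hmA,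
      Set.inter_eq_right.mpr hAB]
  have hA0' : 0 < m.real A := ENNReal.toReal_pos hA0 hmA
  have hpne : (hp : Lp ℝ 2 m) ≠ 0 := by
    intro h0
    rw [h0, inner_zero_right] at hbe
    linarith
  have hpp : inner ℝ e (hp : Lp ℝ 2 m) = ‖(hp : Lp ℝ 2 m)‖ ^ 2 := by
    have h1 := Submodule.inner_orthogonalProjectionOnto_eq_of_mem_right
      (K := U.eqLocus (1 : Lp ℝ 2 m →L[ℝ] Lp ℝ 2 m)) hp e
    rw [← hpdef] at h1
    rw [← real_inner_self_eq_norm_sq]
    exact h1.symm
  have hpos : 0 < inner ℝ e (hp : Lp ℝ 2 m) := by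
    rw [hpp]
    exact pow_pos (norm_pos_iff.mpr hpne) 2
  refine ⟨inner ℝ e (hp : Lp ℝ 2 m) / 2, by positivity, ?_⟩
  have h5 := hlim2.eventually (lt_mem_nhds (half_lt_self hpos))
  filter_upwards [h5, eventually_gt_atTop 0] with N hN hN0
  rw [hav N] at hN
  have hN0' : (0 : ℝ) < N := by exact_mod_cast hN0
  rw [inv_mul_eq_div, lt_div_iff₀ hN0'] at hN
  exact hN.le

/-- pigeonhole -/
theorem KH_pigeon {κ : Type*} (F : Finset κ) (a : κ → ℕ → ℝ) (c : ℝ) (hc : 0 < c)
    (h : ∀ᶠ N : ℕ in atTop, c * N ≤ ∑ W ∈ F, a W N) :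
    ∃ W ∈ F, ∃ c' : ℝ, 0 < c' ∧ ∀ N₀ : ℕ, ∃ N ≥ N₀, c' * N ≤ a W N := by
  have hcard : (0 : ℝ) < (F.card : ℝ) + 1 := by positivity
  set c' : ℝ := c / ((F.card : ℝ) + 1) with hc'
  have hc'0 : 0 < c' := by positivity
  by_contra hcon
  have h1 : ∀ W ∈ F, ∀ᶠ N : ℕ in atTop, a W N < c' * N := by
    intro W hW
    by_contra h2
    apply hcon
    refine ⟨W, hW, c', hc'0, ?_⟩
    rw [Filter.not_eventually, Filter.frequently_atTop] at h2
    intro N₀
    obtain ⟨N, hN, h3⟩ := h2 N₀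
    exact ⟨N, hN, not_lt.mp h3⟩
  have h2 : ∀ᶠ N : ℕ in atTop, ∀ W ∈ F, a W N < c' * N := by
    rw [Filter.eventually_all_finset]
    exact h1
  obtain ⟨N, h3, h4, h5⟩ := (h.and (h2.and (eventually_gt_atTop 0))).exists
  have h6 : ∑ W ∈ F, a W N ≤ ∑ W ∈ F, c' * N := Finset.sum_le_sum fun W hW => (h4 W hW).le
  rw [Finset.sum_const, nsmul_eq_mul] at h6
  have hN : (0 : ℝ) < N := by exact_mod_cast h5
  have h7 : c = c' * ((F.card : ℝ) + 1) := by rw [hc']; field_simp
  have h8 : c * N ≤ F.card * (c' * N) := h3.trans h6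
  rw [h7] at h8
  nlinarith [mul_pos hc'0 hN]

theorem khin {Ω K U : Type*} [MeasurableSpace Ω] (P : Measure Ω) [IsProbabilityMeasure P]
    (S : Ω → Ω) (hS : MeasurePreserving S P P) [Field K] [AddCommGroup U] [Module K U]
    [FiniteDimensional K U] [Countable U] (C : Ω → (U ≃ₗ[K] U))
    (hC : ∀ u u' : U, MeasurableSet {ω | C ω u = u'}) (A : Set Ω) (hA : MeasurableSet A) (u : U)
    (B : Submodule K U → Set Ω) (f : ℕ) (hB : IsFam P S C B f) (W₁ : Submodule K U)
    (hu : u ∈ W₁) (h1 : P (B W₁ ∩ A) ≠ 0) :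
    ∃ W₀ : Submodule K U, (B W₀).Nonempty ∧ ∃ c : ℝ, 0 < c ∧ ∀ N₀ : ℕ, ∃ N ≥ N₀, c * N ≤
      ∑ t ∈ Finset.range N, P.real {ω | coc S C t ω u ∈ W₀ ∧ S^[t] ω ∈ A} := by
  classical
  letI : MeasurableSpace (Submodule K U) := ⊤
  haveI : DiscreteMeasurableSpace (Submodule K U) := ⟨fun _ => MeasurableSpace.measurableSet_top⟩
  haveI : Countable (Submodule K U) := countable_submodule
  haveI : Countable (U ≃ₗ[K] U) := countable_equiv
  obtain ⟨hB1, hB2, hB3⟩ := hB
  -- measurability of the cocycle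
  have hCm : ∀ (n : ℕ) (Z : Set (U ≃ₗ[K] U)), MeasurableSet {ω | coc S C n ω ∈ Z} := by
    intro n Z
    have : {ω | coc S C n ω ∈ Z} = ⋃ g ∈ Z, {ω | coc S C n ω = g} := by
      ext ω; simp
    rw [this]
    exact MeasurableSet.biUnion (Set.to_countable Z) fun g _ =>
      (coc_meas S hS.measurable C hC n).2 g
  have hcoc1 : ∀ ω, coc S C 1 ω = C ω := by
    intro ω
    simp [coc]
  set m : Measure (Ω × Submodule K U) := P.prod Measure.count with hm
  set τ : Ω × Submodule K U → Ω × Submodule K U :=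
    fun z => (S z.1, z.2.comap (C z.1 : U →ₗ[K] U)) with hτdef
  have hτ : MeasurePreserving τ m m := by
    have h := perm_mp P S hS (fun ω => (Submodule.orderIsoMapComap (C ω)).toEquiv) (by
      intro q q'
      have : {ω | (Submodule.orderIsoMapComap (C ω)).toEquiv q = q'} =
          {ω | coc S C 1 ω ∈ {g : U ≃ₗ[K] U | q.map (g : U →ₗ[K] U) = q'}} := by
        ext ω
        simp only [Set.mem_setOf_eq, hcoc1]
        rfl
      rw [this]
      exact hCm 1 _)
    exact h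
  have hit : ∀ (n : ℕ) (z : Ω × Submodule K U),
      τ^[n] z = (S^[n] z.1, z.2.comap ((coc S C n z.1 : U ≃ₗ[K] U) : U →ₗ[K] U)) := by
    intro n
    induction n with
    | zero =>
      intro z
      simp only [Function.iterate_zero, id_eq, coc]
      rfl
    | succ n ih =>
      intro z
      rw [Function.iterate_succ_apply', ih, hτdef]
      simp only [Function.iterate_succ_apply']
      rfl
  set Bs : Set (Ω × Submodule K U) := {z | z.1 ∈ B z.2} with hBs
  set A1 : Set (Ω × Submodule K U) := {z | z.1 ∈ B z.2 ∧ u ∈ z.2 ∧ z.1 ∈ A} with hA1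
  have hmeas : ∀ (E : Submodule K U → Set Ω), (∀ W, MeasurableSet (E W)) →
      MeasurableSet {z : Ω × Submodule K U | z.1 ∈ E z.2} := by
    intro E hE
    have : {z : Ω × Submodule K U | z.1 ∈ E z.2} = ⋃ W, (E W) ×ˢ ({W} : Set (Submodule K U)) := by
      ext ⟨ω, W⟩
      simp
    rw [this]
    exact MeasurableSet.iUnion fun W => (hE W).prod (measurableSet_singleton W)
  have hBsm : MeasurableSet Bs := hmeas B hB1
  have hA1m : MeasurableSet A1 := by
    have := hmeas (fun W => {ω | ω ∈ B W ∧ u ∈ W ∧ ω ∈ A}) (fun W =>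
      ((hB1 W).inter ((MeasurableSet.const _).inter hA)))
    exact this
  have hprod : ∀ Z : Set (Ω × Submodule K U), MeasurableSet Z →
      m Z = ∑' W, P {ω | (ω, W) ∈ Z} := by
    intro Z hZ
    rw [hm, Measure.prod_apply_symm hZ, lintegral_count]
    rfl
  have hBsfin : m Bs ≠ ⊤ := by
    have h2 : m Bs ≤ ∫⁻ _ : Ω, (f : ENNReal) ∂P := by
      rw [hm, Measure.prod_apply hBsm]
      apply lintegral_mono_ae
      filter_upwards [hB3] with ω hω
      have h3 : (Prod.mk ω ⁻¹' Bs) = {W | ω ∈ B W} := rfl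
      rw [h3, Measure.count_apply (MeasurableSet.of_discrete)]
      have h4 : ((({W | ω ∈ B W} : Set (Submodule K U)).encard : ℕ∞) : ENNReal) ≤
          ((f : ℕ∞) : ENNReal) := by
        exact_mod_cast hω
      simpa using h4
    rw [lintegral_const, measure_univ, mul_one] at h2
    exact ne_top_of_le_ne_top (ENNReal.natCast_ne_top f) h2
  have hinv : ∀ᵐ z ∂m, (τ z ∈ Bs ↔ z ∈ Bs) := by
    have h2 : ∀ᵐ ω ∂P, ∀ W : Submodule K U, (τ (ω, W) ∈ Bs ↔ (ω, W) ∈ Bs) := by
      filter_upwards [hB2] with ω hω W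
      have h3 := hω (W.comap (C ω : U →ₗ[K] U))
      rw [Submodule.map_comap_eq_of_surjective (C ω).surjective] at h3
      exact h3.symm
    rw [hm, ae_iff]
    have h5 : P {ω | ¬ ∀ W : Submodule K U, (τ (ω, W) ∈ Bs ↔ (ω, W) ∈ Bs)} = 0 := ae_iff.mp h2
    obtain ⟨E, hE1, hE2, hE3⟩ := exists_measurable_superset_of_null h5
    refine measure_mono_null (t := E ×ˢ Set.univ) ?_ ?_
    · rintro ⟨ω, W⟩ hz
      refine ⟨hE1 ?_, trivial⟩
      intro hcon
      exact hz (hcon W)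
    · rw [Measure.prod_prod, hE3, zero_mul]
  have hA1ne : m A1 ≠ 0 := by
    intro h0
    rw [hprod A1 hA1m, ENNReal.tsum_eq_zero] at h0
    apply h1
    have h2 := h0 W₁
    have h3 : {ω | (ω, W₁) ∈ A1} = B W₁ ∩ A := by
      ext ω
      simp [hA1, hu]
    rwa [h3] at h2
  obtain ⟨c, hc, hev⟩ := KH_mean m τ hτ A1 Bs hA1m hBsm hBsfin (fun z hz => hz.1) hinv hA1ne
  -- the tail
  have htail : ∃ F : Finset (Submodule K U), ∑' W : {W // W ∉ F}, P (B W) < ENNReal.ofReal (c / 2) := by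
    have h2 : ∑' W, P (B W) ≠ ⊤ := by
      rw [hprod Bs hBsm] at hBsfin
      exact hBsfin
    have h3 := ENNReal.tendsto_tsum_compl_atTop_zero h2
    exact (h3.eventually (gt_mem_nhds (ENNReal.ofReal_pos.mpr (half_pos hc)))).exists
  obtain ⟨F, hF⟩ := htail
  set E : ℕ → Submodule K U → Set Ω := fun n W => {ω | coc S C n ω u ∈ W ∧ S^[n] ω ∈ A} with hE
  have hEn : ∀ n, m.real (A1 ∩ τ^[n] ⁻¹' A1) ≤
      ∑ W ∈ F.filter (fun W => (B W).Nonempty), P.real (E n W) + c / 2 := by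
    intro n
    have hZm : MeasurableSet (A1 ∩ τ^[n] ⁻¹' A1) :=
      hA1m.inter (hA1m.preimage (hτ.iterate n).measurable)
    have h2 : m (A1 ∩ τ^[n] ⁻¹' A1) ≤
        ENNReal.ofReal (∑ W ∈ F.filter (fun W => (B W).Nonempty), P.real (E n W)) +
          ENNReal.ofReal (c / 2) := by
      rw [hprod _ hZm, ← ENNReal.sum_add_tsum_compl F]
      refine add_le_add ?_ ?_
      · rw [ENNReal.ofReal_sum_of_nonneg (fun W _ => measureReal_nonneg)]
        rw [Finset.sum_filter]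
        apply Finset.sum_le_sum
        intro W _
        split_ifs with hne
        · rw [ofReal_measureReal]
          apply measure_mono
          rintro ω ⟨hω1, hω2⟩
          rw [Set.mem_preimage, hit] at hω2
          exact ⟨hω2.2.1, hω2.2.2⟩
        · have : {ω | (ω, W) ∈ A1 ∩ τ^[n] ⁻¹' A1} = ∅ := by
            ext ω
            simp only [Set.mem_setOf_eq, Set.mem_empty_iff_false, iff_false]
            rintro ⟨hω1, -⟩
            exact hne ⟨ω, hω1.1⟩
          rw [this, measure_empty]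
      · refine le_trans ?_ hF.le
        apply ENNReal.tsum_le_tsum
        intro W
        apply measure_mono
        rintro ω ⟨hω1, -⟩
        exact hω1.1
    have hnn : 0 ≤ ∑ W ∈ F.filter (fun W => (B W).Nonempty), P.real (E n W) :=
      Finset.sum_nonneg fun W _ => measureReal_nonneg
    rw [← ENNReal.ofReal_add hnn (by positivity)] at h2
    exact ENNReal.toReal_le_of_le_ofReal (by positivity) h2
  have hev2 : ∀ᶠ N : ℕ in atTop, c / 2 * N ≤
      ∑ W ∈ F.filter (fun W => (B W).Nonempty), ∑ n ∈ Finset.range N, P.real (E n W) := by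
    filter_upwards [hev] with N hN
    have h3 : ∑ n ∈ Finset.range N, m.real (A1 ∩ τ^[n] ⁻¹' A1) ≤
        ∑ n ∈ Finset.range N,
          (∑ W ∈ F.filter (fun W => (B W).Nonempty), P.real (E n W) + c / 2) :=
      Finset.sum_le_sum fun n _ => hEn n
    rw [Finset.sum_add_distrib, Finset.sum_const, Finset.card_range, nsmul_eq_mul,
      Finset.sum_comm] at h3
    linarith
  obtain ⟨W₀, hW₀, c', hc', hN⟩ := KH_pigeon _ _ _ (half_pos hc) hev2
  exact ⟨W₀, (Finset.mem_filter.mp hW₀).2, c', hc', hN⟩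

end H567MM
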