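import Pool.Agent.H567R2.MNF.M2
import Pool.Agent.H567R2.MO.Defs
import Pool.Agent.H567R2.MOF.GR
import Pool.Agent.H567R2.MOF.PE
import Pool.Agent.H567R2.MOF.LA

/-! FP: the family on the square. -/

namespace H567MM

open MeasureTheory Filter Topology

theorem FP_aux_diag {K V : Type*} [Field K] [AddCommGroup V] [Module K V] (v w : V) :
    (v, w) ∈ LinearMap.range ((LinearMap.id : V →ₗ[K] V).prod (LinearMap.id : V →ₗ[K] V)) ↔
      v = w := by
  constructor
  · rintro ⟨a, ha⟩
    have h1 : a = v := congrArg Prod.fst ha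
    have h2 : a = w := congrArg Prod.snd ha
    rw [← h1, ← h2]
  · rintro rfl
    exact ⟨v, rfl⟩

theorem FP_aux_meas {X K V : Type*} [MeasurableSpace X] (S : X → X) (hS : Measurable S) [Field K]
    [AddCommGroup V] [Module K V] [FiniteDimensional K V] [Countable V] (φ : X → (V ≃ₗ[K] V))
    (hφ : ∀ v v' : V, MeasurableSet {x | φ x v = v'}) (m : V) (A₀ : Set X)
    (hA : MeasurableSet A₀) (t : ℕ) :
    MeasurableSet {z : X × X | coc S φ t z.1 m = coc S φ t z.2 m ∧
        S^[t] z.1 ∈ A₀ ∧ S^[t] z.2 ∈ A₀} := by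
  have h1 : MeasurableSet {z : X × X | coc S φ t z.1 m = coc S φ t z.2 m} := by
    have h2 : {z : X × X | coc S φ t z.1 m = coc S φ t z.2 m} =
        ⋃ v : V, ({x | coc S φ t x m = v} ×ˢ {x | coc S φ t x m = v}) := by
      ext z
      simp only [Set.mem_iUnion, Set.mem_prod, Set.mem_ofPred_eq]
      constructor
      · intro h; exact ⟨_, h, rfl⟩
      · rintro ⟨v, h, h'⟩; rw [h, h']
    rw [h2]
    refine MeasurableSet.iUnion fun v => ?_
    exact ((coc_meas S hS φ hφ t).1 m v).prod ((coc_meas S hS φ hφ t).1 m v)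
  have h3 : MeasurableSet {z : X × X | S^[t] z.1 ∈ A₀} :=
    ((hS.iterate t).comp measurable_fst) hA
  have h4 : MeasurableSet {z : X × X | S^[t] z.2 ∈ A₀} :=
    ((hS.iterate t).comp measurable_snd) hA
  exact h1.inter (h3.inter h4)

/-- many hits with positive probability -/
theorem FP_aux_hits {Ω : Type*} [MeasurableSpace Ω] (P : Measure Ω) [IsProbabilityMeasure P]
    (E : ℕ → Set Ω) (hE : ∀ t, MeasurableSet (E t)) (c : ℝ) (M : ℕ) (hM : 1 ≤ M)
    (h : c * M ≤ ∑ t ∈ Finset.range M, P.real (E t)) :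
    c / 2 ≤ P.real {ω | (c / 2) * M ≤ ((Set.ncard {t : ℕ | t < M ∧ ω ∈ E t} : ℕ) : ℝ)} := by
  classical
  set g : Ω → ℝ := fun ω => ∑ t ∈ Finset.range M, (E t).indicator (fun _ => (1 : ℝ)) ω with hg
  have hgn : ∀ ω, g ω = ((Set.ncard {t : ℕ | t < M ∧ ω ∈ E t} : ℕ) : ℝ) := by
    intro ω
    have h1 : {t : ℕ | t < M ∧ ω ∈ E t} = ↑((Finset.range M).filter (fun t => ω ∈ E t)) := by
      ext t
      simp
    rw [h1, Set.ncard_coe_finset, hg]
    simp only [Set.indicator_apply]
    rw [Finset.sum_ite]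
    simp
  have hgi : ∀ t, Integrable ((E t).indicator (fun _ => (1 : ℝ))) P := fun t =>
    (integrable_const (1 : ℝ)).indicator (hE t)
  have hgint : Integrable g P := integrable_finsetSum _ fun t _ => hgi t
  have hgI : ∫ ω, g ω ∂P = ∑ t ∈ Finset.range M, P.real (E t) := by
    rw [hg, integral_finsetSum _ fun t _ => hgi t]
    apply Finset.sum_congr rfl
    intro t _
    rw [integral_indicator (hE t)]
    simp
  set H : Set Ω := {ω | (c / 2) * M ≤ g ω} with hH
  have hgm : Measurable g := by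
    rw [hg]
    apply Finset.measurable_sum
    intro t _
    exact measurable_const.indicator (hE t)
  have hHm : MeasurableSet H := measurableSet_le measurable_const hgm
  have hgM : ∀ ω, g ω ≤ M := by
    intro ω
    rw [hg]
    have : ∑ t ∈ Finset.range M, (E t).indicator (fun _ => (1 : ℝ)) ω ≤
        ∑ t ∈ Finset.range M, (1 : ℝ) := by
      apply Finset.sum_le_sum
      intro t _
      rw [Set.indicator_apply]
      split_ifs <;> norm_num
    simpa using this
  have hM0 : (0 : ℝ) < M := by exact_mod_cast hM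
  have hle : ∀ ω, g ω ≤ H.indicator (fun _ => (M : ℝ)) ω + (c / 2) * M ∨ c < 0 := by
    intro ω
    by_cases hc : c < 0
    · exact Or.inr hc
    · left
      rw [Set.indicator_apply]
      split_ifs with h1
      · have := hgM ω
        have : 0 ≤ c / 2 * M := by
          have : 0 ≤ c := not_lt.1 hc
          positivity
        linarith [hgM ω]
      · have : ¬ (c / 2 * M ≤ g ω) := h1
        linarith [not_le.1 this]
  have hset : {ω | (c / 2) * M ≤ ((Set.ncard {t : ℕ | t < M ∧ ω ∈ E t} : ℕ) : ℝ)} = H := by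
    ext ω
    simp only [hH, Set.mem_ofPred_eq, hgn]
  rw [hset]
  by_cases hc : c < 0
  · have := measureReal_nonneg (μ := P) (s := H)
    linarith
  have hint : ∫ ω, g ω ∂P ≤ ∫ ω, (H.indicator (fun _ => (M : ℝ)) ω + (c / 2) * M) ∂P := by
    apply integral_mono hgint
    · exact ((integrable_const (M : ℝ)).indicator hHm).add (integrable_const _)
    · intro ω
      exact (hle ω).resolve_right hc
  rw [integral_add ((integrable_const (M : ℝ)).indicator hHm) (integrable_const _),
    integral_indicator hHm, hgI] at hint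
  simp only [integral_const, MeasurableSet.univ, measureReal_restrict_apply, Set.univ_inter,
    smul_eq_mul, probReal_univ, one_mul] at hint
  have h5 : c * M ≤ P.real H * M + c / 2 * M := h.trans hint
  have h6 : c / 2 * M ≤ P.real H * M := by linarith
  exact le_of_mul_le_mul_right h6 hM0

theorem FP_aux_prC {X K V : Type*} [Field K] [AddCommGroup V] [Module K V]
    (φ : X → (V ≃ₗ[K] V)) (z : X × X) :
    (prC φ z : (V × V) →ₗ[K] (V × V)) =
      LinearMap.prodMap (φ z.1 : V →ₗ[K] V) (φ z.2 : V →ₗ[K] V) := by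
  ext <;> rfl

theorem fam_of_coll {X K V : Type*} [MeasurableSpace X] (μ : Measure X) [IsProbabilityMeasure μ]
    (S : X → X) (hS : MeasurePreserving S μ μ) (hmix : MixOrd μ S 1) [Field K]
    [AddCommGroup V] [Module K V] [FiniteDimensional K V] [Countable V] (φ : X → (V ≃ₗ[K] V))
    (hφ : ∀ v v' : V, MeasurableSet {x | φ x v = v'}) (m : V) (A₀ : Set X)
    (hA : MeasurableSet A₀) (c : ℝ) (hc : 0 < c) (h : ∀ N₀ : ℕ, ∃ N ≥ N₀, c * N ≤
      ∑ t ∈ Finset.range N, (μ.prod μ).real {z | coc S φ t z.1 m = coc S φ t z.2 m ∧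
        S^[t] z.1 ∈ A₀ ∧ S^[t] z.2 ∈ A₀}) :
    ∃ (F : X × X → Finset (Submodule K (V × V))) (f : ℕ), (∀ w, MeasurableSet {z | F z = w}) ∧
      (∀ z, (F z).card ≤ f) ∧ (∀ z, ∀ W ∈ F z, W ∈ G2 (K := K) (V := V)) ∧
      (∀ᵐ z ∂(μ.prod μ), F z = imC (φ z.1) (φ z.2) (F (S z.1, S z.2))) ∧
      (μ.prod μ) {z | z.1 ∈ A₀ ∧ z.2 ∈ A₀ ∧ ∃ W ∈ F z, (m, m) ∈ W} ≠ 0 := by
  classical
  set P : Measure (X × X) := μ.prod μ with hP
  set SS : X × X → X × X := Prod.map S S with hSS
  set A : Set (X × X) := {z | z.1 ∈ A₀ ∧ z.2 ∈ A₀} with hAd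
  have hSSm : MeasurePreserving SS P P := hS.prod hS
  have herg : Ergodic SS P := ergodic_of_mix _ _ hSSm (mix_prod μ μ S S hS hS hmix hmix)
  have hAm : MeasurableSet A := (measurable_fst hA).inter (measurable_snd hA)
  let D : Submodule K (V × V) :=
    LinearMap.range ((LinearMap.id : V →ₗ[K] V).prod (LinearMap.id : V →ₗ[K] V))
  have hDG : D ∈ G2 (K := K) (V := V) := by
    intro v
    exact ⟨fun hv => (FP_aux_diag v 0).1 hv, fun hv => ((FP_aux_diag 0 v).1 hv).symm⟩
  have hiter : ∀ (t : ℕ) (z : X × X), SS^[t] z = (S^[t] z.1, S^[t] z.2) := by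
    intro t z
    rw [hSS, Prod.map_iterate]
    rfl
  have hits_eq : ∀ (M : ℕ) (z : X × X), hits SS (prC φ) A (m, m) D M z =
      Set.ncard {t : ℕ | t < M ∧ z ∈ {z : X × X | coc S φ t z.1 m = coc S φ t z.2 m ∧
        S^[t] z.1 ∈ A₀ ∧ S^[t] z.2 ∈ A₀}} := by
    intro M z
    unfold hits
    congr 1
    ext t
    simp only [Set.mem_ofPred_eq]
    rw [hiter, hSS, prC_coc]
    have h1 : ((coc S φ t z.1 m, coc S φ t z.2 m) ∈ D) ↔ coc S φ t z.1 m = coc S φ t z.2 m :=
      FP_aux_diag _ _
    rw [h1]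
    constructor
    · rintro ⟨ht, ⟨h2, h3⟩, h4⟩; exact ⟨ht, h4, h2, h3⟩
    · rintro ⟨ht, h4, h2, h3⟩; exact ⟨ht, ⟨h2, h3⟩, h4⟩
  obtain ⟨hdown, hinv⟩ := G2_props (K := K) φ
  obtain ⟨B, f, ⟨hBm, hBe, hBf⟩, hBG, W₁, huW, hW₁⟩ := gr_family P SS herg (prC φ)
    (prC_meas φ hφ) A hAm (m, m) (G2 (K := K) (V := V)) hdown hinv (c / 2) (by positivity) (by
      intro M₀
      obtain ⟨M, hM, hM2⟩ := h (max M₀ 1)
      refine ⟨M, (le_max_left _ _).trans hM, ?_⟩
      have h1 := FP_aux_hits P (fun t => {z : X × X | coc S φ t z.1 m = coc S φ t z.2 m ∧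
        S^[t] z.1 ∈ A₀ ∧ S^[t] z.2 ∈ A₀}) (fun t => FP_aux_meas S hS.measurable φ hφ m A₀ hA t) c M
        ((le_max_right _ _).trans hM) hM2
      refine h1.trans (measureReal_mono ?_)
      intro z hz
      refine ⟨D, hDG, ?_⟩
      rw [hits_eq]
      exact hz)
  have : Countable (Submodule K (V × V)) := countable_submodule
  -- the family
  let Ew : Finset (Submodule K (V × V)) → Set (X × X) := fun w => {z | ∀ W, z ∈ B W ↔ W ∈ w}
  have hEwm : ∀ w, MeasurableSet (Ew w) := by
    intro w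
    have h1 : Ew w = ⋂ W, {z | z ∈ B W ↔ W ∈ w} := by
      ext z; simp [Ew]
    rw [h1]
    refine MeasurableSet.iInter fun W => ?_
    by_cases hW : W ∈ w
    · have : {z | z ∈ B W ↔ W ∈ w} = B W := by ext z; simp [hW]
      rw [this]; exact hBm W
    · have : {z | z ∈ B W ↔ W ∈ w} = (B W)ᶜ := by ext z; simp [hW]
      rw [this]; exact (hBm W).compl
  let F : X × X → Finset (Submodule K (V × V)) := fun z =>
    if h : ∃ w : Finset (Submodule K (V × V)), w.card ≤ f ∧ z ∈ Ew w then h.choose else ∅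
  have hFw : ∀ z w, w.card ≤ f → z ∈ Ew w → F z = w := by
    intro z w hw hz
    have hex : ∃ w : Finset (Submodule K (V × V)), w.card ≤ f ∧ z ∈ Ew w := ⟨w, hw, hz⟩
    have h1 : F z = hex.choose := dif_pos hex
    rw [h1]
    have h2 : z ∈ Ew hex.choose := hex.choose_spec.2
    ext W
    rw [← h2 W, hz W]
  have hFn : ∀ z, (¬ ∃ w : Finset (Submodule K (V × V)), w.card ≤ f ∧ z ∈ Ew w) → F z = ∅ :=
    fun z hz => dif_neg hz
  have hFmem : ∀ z, ∀ W ∈ F z, z ∈ B W := by
    intro z W hW
    by_cases hex : ∃ w : Finset (Submodule K (V × V)), w.card ≤ f ∧ z ∈ Ew w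
    · obtain ⟨w, hw, hz⟩ := hex
      rw [hFw z w hw hz] at hW
      exact (hz W).2 hW
    · rw [hFn z hex] at hW
      simp at hW
  have hgood : ∀ z, {W | z ∈ B W}.encard ≤ f → ∃ w : Finset (Submodule K (V × V)),
      w.card ≤ f ∧ z ∈ Ew w := by
    intro z hz
    have hfin : {W | z ∈ B W}.Finite := Set.finite_of_encard_le_coe hz
    refine ⟨hfin.toFinset, ?_, fun W => ?_⟩
    · rw [hfin.encard_eq_coe_toFinset_card] at hz
      exact_mod_cast hz
    · simp
  refine ⟨F, f, ?_, ?_, ?_, ?_, ?_⟩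
  · intro w
    have h1 : {z | F z = w} = (if w.card ≤ f then Ew w else ∅) ∪
        (if w = ∅ then (⋃ w' : {w' : Finset (Submodule K (V × V)) // w'.card ≤ f}, Ew w')ᶜ else ∅) := by
      ext z
      simp only [Set.mem_ofPred_eq, Set.mem_union]
      constructor
      · intro hz
        by_cases hex : ∃ w : Finset (Submodule K (V × V)), w.card ≤ f ∧ z ∈ Ew w
        · obtain ⟨w', hw', hz'⟩ := hex
          left
          have : w = w' := by rw [← hz]; exact hFw z w' hw' hz'
          rw [this, if_pos hw']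
          exact hz'
        · right
          have : w = ∅ := by rw [← hz]; exact hFn z hex
          rw [if_pos this]
          simp only [Set.mem_compl_iff, Set.mem_iUnion, not_exists]
          intro w' hw'
          exact hex ⟨w'.1, w'.2, hw'⟩
      · rintro (hz | hz)
        · split_ifs at hz with hw
          · exact hFw z w hw hz
          · exact absurd hz (Set.notMem_empty _)
        · split_ifs at hz with hw
          · rw [hw]
            apply hFn
            rintro ⟨w', hw', hz'⟩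
            exact hz (Set.mem_iUnion.2 ⟨⟨w', hw'⟩, hz'⟩)
          · exact absurd hz (Set.notMem_empty _)
    rw [h1]
    apply MeasurableSet.union
    · split_ifs
      · exact hEwm w
      · exact MeasurableSet.empty
    · split_ifs
      · exact (MeasurableSet.iUnion
          fun w' : {w' : Finset (Submodule K (V × V)) // w'.card ≤ f} => hEwm w'.1).compl
      · exact MeasurableSet.empty
  · intro z
    by_cases hex : ∃ w : Finset (Submodule K (V × V)), w.card ≤ f ∧ z ∈ Ew w
    · obtain ⟨w, hw, hz⟩ := hex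
      rw [hFw z w hw hz]; exact hw
    · rw [hFn z hex]; simp
  · intro z W hW
    by_contra hWG
    have h1 := hFmem z W hW
    rw [hBG W hWG] at h1
    exact h1
  · filter_upwards [hBe, hBf] with z hz1 hz2
    obtain ⟨w, hw, hzw⟩ := hgood z hz2
    rw [hFw z w hw hzw]
    let C : (V × V) ≃ₗ[K] (V × V) := prC φ z
    let w' : Finset (Submodule K (V × V)) := w.image fun W => W.map (C.symm : (V × V) →ₗ[K] (V × V))
    have hback : ∀ W : Submodule K (V × V), (W.map (C.symm : (V × V) →ₗ[K] (V × V))).map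
        (C : (V × V) →ₗ[K] (V × V)) = W := by
      intro W
      rw [← Submodule.map_comp]
      simp
    have hforth : ∀ W : Submodule K (V × V), (W.map (C : (V × V) →ₗ[K] (V × V))).map
        (C.symm : (V × V) →ₗ[K] (V × V)) = W := by
      intro W
      rw [← Submodule.map_comp]
      simp
    have h1 : F (S z.1, S z.2) = w' := by
      apply hFw
      · exact Finset.card_image_le.trans hw
      · intro W
        have h2 := hz1 W
        have h3 : (S z.1, S z.2) = SS z := rfl
        rw [h3, ← h2, hzw]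
        constructor
        · intro h4
          exact Finset.mem_image.2 ⟨_, h4, hforth W⟩
        · intro h4
          obtain ⟨W', hW', hWe⟩ := Finset.mem_image.1 h4
          rw [← hWe]
          have := hback W'
          rw [show ((prC φ z : (V × V) ≃ₗ[K] (V × V)) : (V × V) →ₗ[K] (V × V)) =
            (C : (V × V) →ₗ[K] (V × V)) from rfl, this]
          exact hW'
    rw [h1]
    unfold imC
    rw [← FP_aux_prC φ z]
    show w = (w.image fun W => W.map (C.symm : (V × V) →ₗ[K] (V × V))).image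
      (fun W => W.map (C : (V × V) →ₗ[K] (V × V)))
    rw [Finset.image_image]
    have h2 : ((fun W : Submodule K (V × V) => W.map (C : (V × V) →ₗ[K] (V × V))) ∘
        fun W => W.map (C.symm : (V × V) →ₗ[K] (V × V))) = id := by
      funext W
      exact hback W
    rw [h2, Finset.image_id]
  · intro h0
    apply hW₁
    have h1 : ∀ᵐ z ∂P, z ∈ B W₁ ∩ A → z ∈ {z | z.1 ∈ A₀ ∧ z.2 ∈ A₀ ∧ ∃ W ∈ F z, (m, m) ∈ W} := by
      filter_upwards [hBf] with z hz2 hzW
      obtain ⟨w, hw, hzw⟩ := hgood z hz2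
      refine ⟨hzW.2.1, hzW.2.2, W₁, ?_, huW⟩
      rw [hFw z w hw hzw]
      exact (hzw W₁).1 hzW.1
    have h2 : ∀ᵐ z ∂P, z ∉ {z | z.1 ∈ A₀ ∧ z.2 ∈ A₀ ∧ ∃ W ∈ F z, (m, m) ∈ W} :=
      measure_eq_zero_iff_ae_notMem.1 h0
    rw [measure_eq_zero_iff_ae_notMem]
    filter_upwards [h1, h2] with z hz1 hz2 hz3
    exact hz2 (hz1 hz3)

end H567MM
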