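import Pool.Agent.H567R2.MNF.M2
import Pool.Agent.H567R2.MO.Defs

/-! The gap lemma for an automorphism of a countable abelian group. -/

namespace H567MM

open H567MM

theorem gap_aut {M : Type*} [AddCommGroup M] [Countable M] (l : M ≃+ M)
    (hl : ∀ r : ℕ, 0 < r → ∀ v : M, l^[r] v = v → v = 0) {s : ℕ} (m : Fin s → M)
    (hm : m ≠ 0) : ∃ G : ℕ, ∀ n : Fin s → ℕ, Gaps G n → ∑ i, l^[n i] (m i) ≠ 0 := by
  classical
  let L : AddMonoid.End M := (l : M →+ M)
  let f : Polynomial ℤ →+* AddMonoid.End M := (Polynomial.aeval L).toRingHom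
  have hfX : f Polynomial.X = L := Polynomial.aeval_X L
  letI inst : Module (Polynomial ℤ) M := Module.compHom M f
  have hsm : ∀ (p : Polynomial ℤ) (v : M), p • v = f p v := fun p v => rfl
  have hpow : ∀ (n : ℕ) (v : M), (L ^ n) v = l^[n] v := by
    intro n
    induction n with
    | zero => intro v; simp
    | succ n ih =>
      intro v
      rw [pow_succ, Function.iterate_succ_apply]
      exact ih (l v)
  have hXn : ∀ (n : ℕ) (v : M), (Polynomial.X ^ n : Polynomial ℤ) • v = l^[n] v := by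
    intro n v
    rw [hsm, map_pow, hfX, hpow]
  obtain ⟨K, iK, _, χ, m₀, w, hm₀, hχ, hw, hrel⟩ := residue (R := Polynomial ℤ) (M := M) m hm
  have hz0 : χ Polynomial.X ≠ 0 := by
    intro h
    have h1 := (hχ _).1 h
    have h2 : l m₀ = 0 := by
      have := hXn 1 m₀
      rw [pow_one] at this
      rw [h1] at this
      exact this.symm
    apply hm₀
    exact (map_eq_zero_iff l l.injective).1 h2
  have hzr : ∀ r : ℕ, 0 < r → (χ Polynomial.X) ^ r ≠ 1 := by
    intro r hr h
    have h1 : χ (Polynomial.X ^ r - 1) = 0 := by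
      rw [map_sub, map_pow, map_one, h, sub_self]
    have h2 := (hχ _).1 h1
    rw [sub_smul, one_smul, sub_eq_zero, hXn] at h2
    exact hm₀ (hl r hr m₀ h2)
  obtain ⟨G, hG⟩ := gap (χ Polynomial.X) hz0 hzr w hw
  refine ⟨G, fun n hn hsum => hG n hn ?_⟩
  have h1 : ∑ i, (Polynomial.X ^ n i : Polynomial ℤ) • m i = 0 := by
    rw [← hsum]
    exact Finset.sum_congr rfl fun i _ => hXn (n i) (m i)
  have h2 := hrel (fun i => Polynomial.X ^ n i) h1
  rw [← h2]
  refine Finset.sum_congr rfl fun i _ => ?_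
  rw [map_pow]

end H567MM
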