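import Pool.Agent.H567R2.MNF.M2
import Pool.Agent.H567R2.MO.Defs

/-! NI: iterates of the skew product and measurability of the cocycle (helper955). -/

namespace H567MM

open MeasureTheory Filter Topology

theorem NI_aux_nact {R M : Type*} [CommRing R] [AddCommGroup M] [Module R M] (g g' : M ≃ₗ[R] M)
    (y : Dual M) : nact g (nact g' y) = nact (g' * g) y := by
  ext m
  rfl

theorem nskew_iterate {X R M : Type*} [CommRing R] [AddCommGroup M] [Module R M] (S : X → X)
    (φ : X → (M ≃ₗ[R] M)) (n : ℕ) (x : X) (y : Dual M) :
    (nskew S φ)^[n] (x, y) = (S^[n] x, nact (coc S φ n x) y) := by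
  induction n with
  | zero =>
    simp only [Function.iterate_zero, id]
    refine Prod.ext rfl ?_
    ext m
    rfl
  | succ n ih =>
    rw [Function.iterate_succ_apply', ih, Function.iterate_succ_apply']
    show (S (S^[n] x), nact (φ (S^[n] x)) (nact (coc S φ n x) y)) = _
    rw [NI_aux_nact]
    rfl

theorem ncoc_meas {X R M : Type*} [MeasurableSpace X] [CommRing R] [AddCommGroup M]
    [Module R M] [Countable M] (S : X → X) (hS : Measurable S) (φ : X → (M ≃ₗ[R] M))
    (hφ : ∀ v v' : M, MeasurableSet {x | φ x v = v'}) (n : ℕ) (v v' : M) :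
    MeasurableSet {x | coc S φ n x v = v'} := by
  induction n generalizing v v' with
  | zero =>
    have h : {x : X | coc S φ 0 x v = v'} = {_x : X | v = v'} := by
      ext x
      rfl
    rw [h]
    exact MeasurableSet.const _
  | succ n ih =>
    have h : {x : X | coc S φ (n + 1) x v = v'} =
        ⋃ w : M, ((S^[n]) ⁻¹' {x | φ x v = w}) ∩ {x | coc S φ n x w = v'} := by
      ext x
      simp only [Set.mem_iUnion, Set.mem_inter_iff, Set.mem_preimage, Set.mem_ofPred_eq]
      have h1 : coc S φ (n + 1) x v = coc S φ n x (φ (S^[n] x) v) := rfl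
      rw [h1]
      constructor
      · intro h
        exact ⟨_, rfl, h⟩
      · rintro ⟨w, h2, h3⟩
        rw [h2]
        exact h3
    rw [h]
    exact MeasurableSet.iUnion fun w => ((hS.iterate n) (hφ v w)).inter (ih w v')

end H567MM
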