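import Pool.Agent.H567R2.MNF.M2
import Pool.Agent.H567R2.MO.Defs
import Pool.Agent.H567R2.MOF.NI
import Pool.Agent.H567R2.MOF.NP

/-! Task NM: mixing of tensor functions. -/

namespace H567MM

open MeasureTheory Filter Topology

theorem NM_aux_prod {X R M : Type*} [CommRing R] [AddCommGroup M] [Module R M] (S : X → X)
    (φ : X → (M ≃ₗ[R] M)) (k : ℕ) (A : Fin (k + 1) → Set X) (m : Fin (k + 1) → M) (n : Fin (k + 1) → ℕ)
    (x : X) (y : Dual M) :
    ∏ j, ten (A j) (m j) ((nskew S φ)^[n j] (x, y)) =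
      (∏ j, (A j).indicator (fun _ => (1 : ℂ)) (S^[n j] x)) *
        ((y (∑ j, coc S φ (n j) x (m j)) : Circle) : ℂ) := by
  have h1 : ∀ j, ten (A j) (m j) ((nskew S φ)^[n j] (x, y)) =
      (A j).indicator (fun _ => (1 : ℂ)) (S^[n j] x) * ((y (coc S φ (n j) x (m j)) : Circle) : ℂ) := by
    intro j
    rw [H567MM.nskew_iterate]
    rfl
  rw [Finset.prod_congr rfl (fun j _ => h1 j), Finset.prod_mul_distrib]
  congr 1
  have h2 : y (∑ j, coc S φ (n j) x (m j)) = ∏ j, y (coc S φ (n j) x (m j)) := by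
    have := map_prod y.toMonoidHom
      (fun j => Multiplicative.ofAdd (coc S φ (n j) x (m j))) Finset.univ
    simpa [← ofAdd_sum] using this
  rw [h2]
  exact (map_prod Circle.coeHom _ _).symm

theorem ntensor_mix {X R M : Type*} [MeasurableSpace X] (μ : Measure X)
    [IsProbabilityMeasure μ] (S : X → X) (hS : MeasurePreserving S μ μ)
    [CommRing R] [AddCommGroup M] [Module R M] [Countable M] (φ : X → (M ≃ₗ[R] M))
    (hφ : ∀ v v' : M, MeasurableSet {x | φ x v = v'}) (ν : Measure (Dual M))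
    (hν : IsHaarProb ν) (k : ℕ) (hk : MixOrd μ S k)
    (hsmall : ∀ m : Fin (k + 1) → M, m ≠ 0 → ∀ ε : ℝ, 0 < ε → ∃ G : ℕ,
      ∀ n : Fin (k + 1) → ℕ, n 0 = 0 → (∀ j : Fin k, n j.castSucc + G ≤ n j.succ) →
      μ.real {x | ∑ j, coc S φ (n j) x (m j) = 0} < ε)
    (A : Fin (k + 1) → Set X) (hA : ∀ j, MeasurableSet (A j)) (m : Fin (k + 1) → M)
    (ε : ℝ) (hε : 0 < ε) : ∃ G : ℕ, ∀ n : Fin (k + 1) → ℕ, n 0 = 0 →
      (∀ j : Fin k, n j.castSucc + G ≤ n j.succ) →
      ‖∫ z, ∏ j, ten (A j) (m j) ((nskew S φ)^[n j] z) ∂(μ.prod ν) -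
        ∏ j, ∫ z, ten (A j) (m j) z ∂(μ.prod ν)‖ < ε := by
  classical
  haveI := hν.1
  have hT := H567MM.nskew_mp μ S hS φ hφ ν hν
  -- the integral
  have hmeas : ∀ n : Fin (k + 1) → ℕ, Measurable
      (fun z : X × Dual M => ∏ j, ten (A j) (m j) ((nskew S φ)^[n j] z)) := by
    intro n
    apply Finset.measurable_prod
    intro j _
    exact (TM_aux_ten_meas (A j) (hA j) (m j)).comp (hT.measurable.iterate (n j))
  have hint : ∀ n : Fin (k + 1) → ℕ, Integrable
      (fun z : X × Dual M => ∏ j, ten (A j) (m j) ((nskew S φ)^[n j] z)) (μ.prod ν) := by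
    intro n
    refine Integrable.of_bound (hmeas n).aestronglyMeasurable 1 (ae_of_all _ fun z => ?_)
    rw [norm_prod]
    exact Finset.prod_le_one (fun j _ => norm_nonneg _) fun j _ => TM_aux_ten_le _ _ _
  have hI : ∀ n : Fin (k + 1) → ℕ,
      ∫ z, ∏ j, ten (A j) (m j) ((nskew S φ)^[n j] z) ∂(μ.prod ν) =
      ∫ x, (∏ j, (A j).indicator (fun _ => (1 : ℂ)) (S^[n j] x)) *
        (if ∑ j, coc S φ (n j) x (m j) = 0 then (1 : ℂ) else 0) ∂μ := by
    intro n
    rw [integral_prod _ (hint n)]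
    congr 1
    ext x
    have h1 : ∀ y : Dual M, ∏ j, ten (A j) (m j) ((nskew S φ)^[n j] (x, y)) =
      (∏ j, (A j).indicator (fun _ => (1 : ℂ)) (S^[n j] x)) *
        ((y (∑ j, coc S φ (n j) x (m j)) : Circle) : ℂ) := fun y => NM_aux_prod S φ k A m n x y
    simp only [h1]
    rw [integral_const_mul, TM_aux_int_char ν hν]
  have hprod : ∏ j, ∫ z, ten (A j) (m j) z ∂(μ.prod ν) =
      ∏ j, (if m j = 0 then ((μ.real (A j) : ℝ) : ℂ) else 0) :=
    Finset.prod_congr rfl fun j _ => TM_aux_ten_int μ ν hν (A j) (hA j) (m j)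
  by_cases hm : m = 0
  · -- all characters are trivial
    obtain ⟨G, hG⟩ := hk A hA ε hε
    refine ⟨G, fun n hn0 hn => ?_⟩
    have h1 := hG n hn0 hn
    have h2 : ∫ x, (∏ j, (A j).indicator (fun _ => (1 : ℂ)) (S^[n j] x)) *
        (if ∑ j, coc S φ (n j) x (m j) = 0 then (1 : ℂ) else 0) ∂μ =
        ((μ.real (⋂ j, S^[n j] ⁻¹' A j) : ℝ) : ℂ) := by
      have h3 : ∀ x, (∏ j, (A j).indicator (fun _ => (1 : ℂ)) (S^[n j] x)) *
          (if ∑ j, coc S φ (n j) x (m j) = 0 then (1 : ℂ) else 0) =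
          (⋂ j, S^[n j] ⁻¹' A j).indicator (fun _ => (1 : ℂ)) x := by
        intro x
        have h4 : ∑ j, coc S φ (n j) x (m j) = 0 := by simp [hm]
        rw [if_pos h4, mul_one]
        by_cases h5 : x ∈ ⋂ j, S^[n j] ⁻¹' A j
        · rw [Set.indicator_of_mem h5]
          apply Finset.prod_eq_one
          intro j _
          have := Set.mem_iInter.1 h5 j
          rw [Set.indicator_of_mem (show S^[n j] x ∈ A j from this)]
        · rw [Set.indicator_of_notMem h5]
          rw [Set.mem_iInter, not_forall] at h5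
          obtain ⟨j, hj⟩ := h5
          apply Finset.prod_eq_zero (Finset.mem_univ j)
          rw [Set.indicator_of_notMem]
          exact hj
      simp only [h3]
      rw [integral_indicator]
      · simp
      · exact MeasurableSet.iInter fun j => (hS.measurable.iterate (n j)) (hA j)
    rw [hI n, h2, hprod]
    have h6 : ∏ j, (if m j = 0 then ((μ.real (A j) : ℝ) : ℂ) else 0) =
        ((∏ j, μ.real (A j) : ℝ) : ℂ) := by
      push_cast
      apply Finset.prod_congr rfl
      intro j _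
      simp [hm]
    rw [h6, ← Complex.ofReal_sub, Complex.norm_real, Real.norm_eq_abs]
    exact h1
  · -- some character is nontrivial
    obtain ⟨G, hG⟩ := hsmall m hm ε hε
    refine ⟨G, fun n hn0 hn => ?_⟩
    have h1 := hG n hn0 hn
    have h2 : ∏ j, (if m j = 0 then ((μ.real (A j) : ℝ) : ℂ) else 0) = 0 := by
      obtain ⟨j, hj⟩ := Function.ne_iff.1 hm
      apply Finset.prod_eq_zero (Finset.mem_univ j)
      have hj' : ¬ (m j = 0) := hj
      rw [if_neg hj']
    rw [hI n, hprod, h2, sub_zero]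
    refine lt_of_le_of_lt ?_ h1
    -- measurability of the set
    have hval : ∀ (t : ℕ) (a b : M), MeasurableSet {x | coc S φ t x a = b} :=
      fun t a b => H567MM.ncoc_meas S hS.measurable φ hφ t a b
    have hset : MeasurableSet {x | ∑ i, coc S φ (n i) x (m i) = 0} := by
      have h3 : {x | ∑ i, coc S φ (n i) x (m i) = 0} =
          ⋃ c : {c : Fin (k + 1) → M // ∑ i, c i = 0}, ⋂ i, {x | coc S φ (n i) x (m i) = c.1 i} := by
        ext x
        simp only [Set.mem_setOf_eq, Set.mem_iUnion, Set.mem_iInter]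
        constructor
        · intro h
          exact ⟨⟨fun i => coc S φ (n i) x (m i), h⟩, fun i => rfl⟩
        · rintro ⟨⟨c, hc⟩, h⟩
          rw [← hc]
          exact Finset.sum_congr rfl fun i _ => h i
      rw [h3]
      exact MeasurableSet.iUnion fun c => MeasurableSet.iInter fun i => hval _ _ _
    calc ‖∫ x, (∏ j, (A j).indicator (fun _ => (1 : ℂ)) (S^[n j] x)) *
          (if ∑ j, coc S φ (n j) x (m j) = 0 then (1 : ℂ) else 0) ∂μ‖ ≤
          ∫ x, {x | ∑ i, coc S φ (n i) x (m i) = 0}.indicator (fun _ => (1 : ℝ)) x ∂μ := by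
          apply norm_integral_le_of_norm_le
          · exact (integrable_const (1 : ℝ)).indicator hset
          · refine ae_of_all _ fun x => ?_
            by_cases h3 : ∑ j, coc S φ (n j) x (m j) = 0
            · rw [if_pos h3, mul_one, norm_prod, Set.indicator_of_mem (show x ∈ {x | ∑ i, coc S φ (n i) x (m i) = 0} from h3)]
              apply Finset.prod_le_one (fun j _ => norm_nonneg _)
              intro j _
              by_cases h4 : S^[n j] x ∈ A j
              · simp [h4]
              · simp [h4]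
            · rw [if_neg h3, mul_zero, norm_zero]
              exact Set.indicator_nonneg (fun _ _ => zero_le_one) x
      _ = μ.real {x | ∑ i, coc S φ (n i) x (m i) = 0} := by
          rw [integral_indicator hset]
          simp

end H567MM
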