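import Pool.Agent.H567R2.MNF.M2
import Pool.Agent.H567R2.MO.Defs

/-! R2: reduction of modules to vector spaces. -/

namespace H567MM

universe u v

open scoped nonZeroDivisors

theorem R2_aux_loc {A : Type u} {N : Type v} [CommRing A] [IsDomain A] [IsNoetherianRing A]
    [Countable A] [AddCommGroup N] [Module A N] [Module.Finite A N] {Γ : Type*} [Group Γ]
    (ρ : Γ →* Module.End A N) :
    ∃ (K : Type u) (_ : Field K) (_ : Countable K) (V : Type (max u v)) (_ : AddCommGroup V)
      (_ : Module K V) (_ : FiniteDimensional K V) (F : Γ →* (V ≃ₗ[K] V)) (ι : N →+ V),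
      (∀ n, ι n = 0 → ∃ a : A, a ≠ 0 ∧ a • n = 0) ∧
      (∀ g n, F g (ι n) = ι (ρ g n)) ∧
      (∀ v v' : V, ∃ n n' : N, (v ≠ 0 → n ≠ 0) ∧ ∀ g, F g v = v' ↔ ρ g n = n') := by
  classical
  let E : Γ →* Module.End (FractionRing A) (LocalizedModule A⁰ N) :=
    { toFun := fun g => LocalizedModule.map A⁰ (ρ g)
      map_one' := by
        rw [map_one]; exact LocalizedModule.map_id A⁰
      map_mul' := by
        intro g h
        apply LinearMap.ext
        intro v
        induction v using LocalizedModule.induction_on with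
        | h n s =>
          rw [map_mul, Module.End.mul_apply, LocalizedModule.map_mk, LocalizedModule.map_mk,
            LocalizedModule.map_mk]
          rfl }
  let F : Γ →* (LocalizedModule A⁰ N ≃ₗ[FractionRing A] LocalizedModule A⁰ N) :=
    (LinearMap.GeneralLinearGroup.generalLinearEquiv (FractionRing A)
      (LocalizedModule A⁰ N)).toMonoidHom.comp (MonoidHom.toHomUnits E)
  have hF : ∀ g n s, F g (LocalizedModule.mk n s) = LocalizedModule.mk (ρ g n) s := by
    intro g n s
    change LocalizedModule.map A⁰ (ρ g) (LocalizedModule.mk n s) = _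
    rw [LocalizedModule.map_mk]
  have hcK : Countable (FractionRing A) := by
    have h : Function.Surjective fun q : A × A⁰ => IsLocalization.mk' (FractionRing A) q.1 q.2 := by
      intro z
      obtain ⟨x, y, h⟩ := IsLocalization.exists_mk'_eq A⁰ z
      exact ⟨(x, y), h⟩
    exact h.countable
  refine ⟨FractionRing A, inferInstance, hcK, LocalizedModule A⁰ N, inferInstance,
    inferInstance, inferInstance, F, (LocalizedModule.mkLinearMap A⁰ N).toAddMonoidHom, ?_, ?_, ?_⟩
  · intro n hn
    have h1 : n ∈ LinearMap.ker (LocalizedModule.mkLinearMap A⁰ N) := hn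
    rw [LocalizedModule.mem_ker_mkLinearMap_iff] at h1
    obtain ⟨r, hr, h⟩ := h1
    exact ⟨r, nonZeroDivisors.ne_zero hr, h⟩
  · intro g n
    exact hF g n 1
  · -- the torsion submodule
    have : IsNoetherian A N := inferInstance
    have hfin : Module.Finite A (Submodule.torsion A N) := inferInstance
    obtain ⟨s₀, hs1, hs2⟩ := Submodule.annihilator_top_inter_nonZeroDivisors
      (Submodule.torsion_isTorsion (R := A) (M := N))
    have hs3 : ∀ n : N, (∃ u : A⁰, u • n = 0) → s₀ • n = 0 := by
      intro n hn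
      have hn' : n ∈ Submodule.torsion A N := hn
      have := Submodule.mem_annihilator.mp hs1 ⟨n, hn'⟩ Submodule.mem_top
      exact congrArg Subtype.val this
    intro v v'
    induction v using LocalizedModule.induction_on with
    | h n a =>
    induction v' using LocalizedModule.induction_on with
    | h n' b =>
    refine ⟨s₀ • (b : A) • n, s₀ • (a : A) • n', ?_, ?_⟩
    · intro hv h0
      apply hv
      rw [← LocalizedModule.zero_mk (M := N) (1 : A⁰), LocalizedModule.mk_eq]
      refine ⟨⟨s₀, hs2⟩ * b, ?_⟩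
      rw [smul_zero, smul_zero, one_smul, mul_smul]
      exact h0
    · intro g
      rw [hF, LocalizedModule.mk_eq, map_smul, map_smul]
      constructor
      · rintro ⟨u, hu⟩
        have h1 : s₀ • ((b : A) • (ρ g n) - (a : A) • n') = 0 := by
          apply hs3
          refine ⟨u, ?_⟩
          rw [smul_sub]
          exact sub_eq_zero.mpr hu
        rw [smul_sub] at h1
        exact sub_eq_zero.mp h1
      · intro h
        exact ⟨⟨s₀, hs2⟩, h⟩

theorem residue2.{u', v'} {R : Type u'} {M : Type v'} [CommRing R] [IsNoetherianRing R]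
    [AddCommGroup M] [Module R M] [Module.Finite R M] [Countable M] {s : ℕ} (m : Fin s → M)
    (hm : m ≠ 0) :
    ∃ (K : Type u') (_ : Field K) (_ : Countable K) (V : Type (max u' v')) (_ : AddCommGroup V)
      (_ : Module K V) (_ : FiniteDimensional K V) (F : (M ≃ₗ[R] M) →* (V ≃ₗ[K] V))
      (w : Fin s → V), w ≠ 0 ∧
      (∀ g : Fin s → (M ≃ₗ[R] M), ∑ j, g j (m j) = 0 → ∑ j, F (g j) (w j) = 0) ∧
      (∀ v v' : V, ∃ m' m'' : M, (v ≠ 0 → m' ≠ 0) ∧
        ∀ g : M ≃ₗ[R] M, F g v = v' ↔ g m' = m'') := by
  classical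
  -- the prime
  have hne : (⟨m, Submodule.mem_span_singleton_self m⟩ : Submodule.span R {m}) ≠ 0 := by
    intro h
    exact hm (congrArg Subtype.val h)
  obtain ⟨p, hp, -⟩ := exists_le_isAssociatedPrime_of_isNoetherianRing R
    (⟨m, Submodule.mem_span_singleton_self m⟩ : Submodule.span R {m}) hne
  rw [isAssociatedPrime_iff] at hp
  obtain ⟨hpp, ⟨x, hx⟩, hpx⟩ := hp
  obtain ⟨r, rfl⟩ := Submodule.mem_span_singleton.mp hx
  have hmem : ∀ c : R, c ∈ p ↔ c • r • m = 0 := by
    intro c
    rw [hpx, Submodule.mem_colon_singleton, Submodule.mem_bot]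
    constructor
    · intro h; exact congrArg Subtype.val h
    · intro h; exact Subtype.ext h
  -- countability of the quotient
  have hcA : Countable (R ⧸ p) := by
    let f : R →ₗ[R] (Fin s → M) := LinearMap.toSpanSingleton R _ (r • m)
    have hker : p = LinearMap.ker f := by
      ext c
      rw [hmem, LinearMap.mem_ker]
      rfl
    have hinj : Function.Injective (p.liftQ f hker.le) := by
      rw [← LinearMap.ker_eq_bot]
      exact Submodule.ker_liftQ_eq_bot _ _ _ hker.ge
    exact hinj.countable
  let N := Submodule.torsionBySet R M (p : Set R)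
  have hNmem : ∀ n : M, n ∈ N ↔ ∀ a ∈ p, a • n = 0 := by
    intro n
    rw [Submodule.mem_torsionBySet_iff]
    exact ⟨fun h a ha => h ⟨a, ha⟩, fun h a => h a a.2⟩
  have hgN : ∀ (g : M ≃ₗ[R] M) (n : N), g n ∈ N := by
    intro g n
    rw [hNmem]
    intro a ha
    rw [← map_smul, (hNmem _).mp n.2 a ha, map_zero]
  let ρ : (M ≃ₗ[R] M) →* Module.End (R ⧸ p) N :=
    { toFun := fun g =>
        { toFun := fun n => ⟨g n, hgN g n⟩
          map_add' := by
            intro n n'
            apply Subtype.ext
            exact map_add g _ _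
          map_smul' := by
            intro c n
            obtain ⟨c, rfl⟩ := Ideal.Quotient.mk_surjective c
            apply Subtype.ext
            exact map_smul g c (n : M) }
      map_one' := rfl
      map_mul' := fun g h => rfl }
  have hfinN : Module.Finite (R ⧸ p) N := by
    have : Module.Finite R N := inferInstance
    exact Module.Finite.of_restrictScalars_finite R (R ⧸ p) N
  obtain ⟨K, iK, hK, V, iV, iM, iF, F, ι, h1, h2, h3⟩ := R2_aux_loc ρ
  have hrm : ∀ j, r • m j ∈ N := by
    intro j
    rw [hNmem]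
    intro a ha
    exact congrFun ((hmem a).mp ha) j
  refine ⟨K, iK, hK, V, iV, iM, iF, F, fun j => ι ⟨r • m j, hrm j⟩, ?_, ?_, ?_⟩
  · intro hw
    have h4 : ∀ j, ∃ a : R, a ∉ p ∧ a • r • m j = 0 := by
      intro j
      obtain ⟨a, ha, h⟩ := h1 _ (congrFun hw j)
      obtain ⟨a, rfl⟩ := Ideal.Quotient.mk_surjective a
      refine ⟨a, ?_, congrArg Subtype.val h⟩
      intro ha'
      exact ha (Ideal.Quotient.eq_zero_iff_mem.mpr ha')
    choose a ha ha' using h4
    have h5 : (∏ j, a j) • r • m = 0 := by
      funext j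
      change (∏ j, a j) • r • m j = 0
      rw [← Finset.prod_erase_mul _ _ (Finset.mem_univ j), mul_smul, ha', smul_zero]
    have h6 : (∏ j, a j) ∈ p := (hmem _).mpr h5
    obtain ⟨j, -, hj⟩ := (Ideal.IsPrime.prod_mem_iff).mp h6
    exact ha j hj
  · intro g hg
    simp only [h2]
    rw [← map_sum]
    have : ∑ j, ρ (g j) ⟨r • m j, hrm j⟩ = 0 := by
      apply Subtype.ext
      rw [AddSubmonoidClass.coe_finsetSum]
      change ∑ j, g j (r • m j) = 0
      simp only [map_smul]
      rw [← Finset.smul_sum, hg, smul_zero]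
    rw [this, map_zero]
  · intro v v'
    obtain ⟨n, n', hn, h⟩ := h3 v v'
    refine ⟨n, n', ?_, ?_⟩
    · intro hv h0
      exact hn hv (Subtype.ext h0)
    · intro g
      rw [h g]
      exact Subtype.ext_iff

end H567MM
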