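import Pool.Agent.H567R2.MNF.M2
import Pool.Agent.H567R2.MO.Defs
import Pool.Agent.H567R2.MOF.CL2
import Pool.Agent.H567R2.MOF.LA

/-! Task ZI: the infimum is zero. -/

set_option autoImplicit false

namespace H567MM

open MeasureTheory Filter Topology

theorem ZI_aux_imF_imC {K V : Type*} [Field K] [AddCommGroup V] [Module K V]
    (g u v : V ≃ₗ[K] V) (A : Finset (Submodule K (V × V))) :
    imF g (imC u v A) = imC u (v.trans g) A := by
  classical
  unfold imF imC
  rw [Finset.image_image]
  refine Finset.image_congr fun W _ => ?_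
  rw [Function.comp_apply, ← Submodule.map_comp]
  congr 1

theorem ZI_aux_imC_imF {K V : Type*} [Field K] [AddCommGroup V] [Module K V]
    (g u v : V ≃ₗ[K] V) (A : Finset (Submodule K (V × V))) :
    imC u v (imF g A) = imC u (g.trans v) A := by
  classical
  unfold imF imC
  rw [Finset.image_image]
  refine Finset.image_congr fun W _ => ?_
  rw [Function.comp_apply, ← Submodule.map_comp]
  congr 1

theorem ZI_aux_imC_inj {K V : Type*} [Field K] [AddCommGroup V] [Module K V]
    (u v : V ≃ₗ[K] V) : Function.Injective (imC (K := K) (V := V) u v) := by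
  classical
  unfold imC
  apply Finset.image_injective
  apply Submodule.map_injective_of_injective
  intro x y h
  have h1 : (u x.1, v x.2) = (u y.1, v y.2) := h
  rw [Prod.mk.injEq] at h1
  exact Prod.ext (u.injective h1.1) (v.injective h1.2)

theorem ZI_aux_one {K V : Type*} [Field K] [AddCommGroup V] [Module K V]
    (A : Finset (Submodule K (V × V))) : imF (LinearEquiv.refl K V) A = A := by
  classical
  unfold imF
  have h : (fun W : Submodule K (V × V) => W.map (LinearMap.prodMap (LinearMap.id : V →ₗ[K] V)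
      ((LinearEquiv.refl K V : V ≃ₗ[K] V) : V →ₗ[K] V))) = id := by
    funext W
    have e : (LinearMap.prodMap (LinearMap.id : V →ₗ[K] V)
      ((LinearEquiv.refl K V : V ≃ₗ[K] V) : V →ₗ[K] V)) = LinearMap.id := by
      ext x <;> simp
    rw [e, Submodule.map_id]
    rfl
  rw [h, Finset.image_id]

/-- the equivalence -/
theorem ZI_aux_iff {K V : Type*} [Field K] [AddCommGroup V] [Module K V]
    (g g' u v v' : V ≃ₗ[K] V) (h : v.trans g = g'.trans v')
    (A B : Finset (Submodule K (V × V))) :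
    imF g (imC u v A) = imC u v' B ↔ imF g' A = B := by
  rw [ZI_aux_imF_imC, h, ← ZI_aux_imC_imF]
  exact (ZI_aux_imC_inj u v').eq_iff

section

variable {X K V : Type*} [MeasurableSpace X] [Field K] [AddCommGroup V] [Module K V]
  [FiniteDimensional K V] [Countable V]

/-- the set of points where the two values differ -/
def ZI_H (F : X × X → Finset (Submodule K (V × V))) (g : V ≃ₗ[K] V) : Set (X × (X × X)) :=
  {z | imF g (F (z.1, z.2.1)) ≠ F (z.1, z.2.2)}

theorem ZI_aux_meas (F : X × X → Finset (Submodule K (V × V)))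
    (hF : ∀ w, MeasurableSet {z | F z = w}) (g : V ≃ₗ[K] V) : MeasurableSet (ZI_H F g) := by
  have : Countable (Submodule K (V × V)) := countable_submodule
  have h1 : ZI_H F g = ⋃ w : Finset (Submodule K (V × V)),
      ⋃ w' : Finset (Submodule K (V × V)), ⋃ _ : imF g w ≠ w',
      {z : X × (X × X) | F (z.1, z.2.1) = w} ∩ {z : X × (X × X) | F (z.1, z.2.2) = w'} := by
    ext z
    simp only [ZI_H, Set.mem_iUnion, Set.mem_inter_iff]
    constructor
    · intro h
      exact ⟨F (z.1, z.2.1), F (z.1, z.2.2), h, rfl, rfl⟩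
    · rintro ⟨w, w', h, h2, h3⟩
      have h2' : F (z.1, z.2.1) = w := h2
      have h3' : F (z.1, z.2.2) = w' := h3
      show imF g (F (z.1, z.2.1)) ≠ F (z.1, z.2.2)
      rw [h2', h3']
      exact h
  rw [h1]
  refine MeasurableSet.iUnion fun w => MeasurableSet.iUnion fun w' => MeasurableSet.iUnion fun _ =>
    MeasurableSet.inter ?_ ?_
  · exact (measurable_fst.prodMk (measurable_fst.comp measurable_snd)) (hF w)
  · exact (measurable_fst.prodMk (measurable_snd.comp measurable_snd)) (hF w')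

/-- the slice -/
def ZI_D (F : X × X → Finset (Submodule K (V × V))) (g : V ≃ₗ[K] V) (p : X × X) : Set X :=
  {a | imF g (F (a, p.1)) ≠ F (a, p.2)}

theorem ZI_aux_slice (F : X × X → Finset (Submodule K (V × V)))
    (hF : ∀ w, MeasurableSet {z | F z = w}) (g : V ≃ₗ[K] V) (p : X × X) :
    MeasurableSet (ZI_D F g p) :=
  (measurable_id.prodMk measurable_const : Measurable fun a : X => (a, p)) (ZI_aux_meas F hF g)

theorem ZI_aux_E (μ : Measure X) [IsProbabilityMeasure μ]
    (F : X × X → Finset (Submodule K (V × V)))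
    (hF : ∀ w, MeasurableSet {z | F z = w}) (ε : ℝ) :
    MeasurableSet {p : X × X | ∃ g : V ≃ₗ[K] V, μ.real (ZI_D F g p) < ε} := by
  have : Countable (V ≃ₗ[K] V) := countable_equiv
  have h1 : {p : X × X | ∃ g : V ≃ₗ[K] V, μ.real (ZI_D F g p) < ε} =
      ⋃ g : V ≃ₗ[K] V, {p : X × X | μ.real (ZI_D F g p) < ε} := by
    ext p
    simp only [Set.mem_iUnion]
    rfl
  rw [h1]
  refine MeasurableSet.iUnion fun g => ?_
  have h2 : Measurable fun p : X × X => μ.real (ZI_D F g p) :=
    (measurable_measure_prodMk_right (μ := μ) (ZI_aux_meas F hF g)).ennreal_toReal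
  exact measurableSet_lt h2 measurable_const

end

/-- ZI -/
theorem zero_inf {X K V : Type*} [MeasurableSpace X] (μ : Measure X) [IsProbabilityMeasure μ]
    (S : X → X) (hS : MeasurePreserving S μ μ) (hmix : MixOrd μ S 1) [Field K]
    [AddCommGroup V] [Module K V] [FiniteDimensional K V] [Countable V] (φ : X → (V ≃ₗ[K] V))
    (hφ : ∀ v v' : V, MeasurableSet {x | φ x v = v'})
    (F : X × X → Finset (Submodule K (V × V))) (hF : ∀ w, MeasurableSet {z | F z = w})
    (heq : ∀ᵐ z ∂(μ.prod μ), F z = imC (φ z.1) (φ z.2) (F (S z.1, S z.2))) :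
    ∀ᵐ p ∂(μ.prod μ), ∀ ε : ℝ, 0 < ε → ∃ g : V ≃ₗ[K] V,
      μ.real {a | imF g (F (a, p.1)) ≠ F (a, p.2)} < ε := by
  have : Countable (Submodule K (V × V)) := countable_submodule
  have hS2 : MeasurePreserving (Prod.map S S) (μ.prod μ) (μ.prod μ) := hS.prod hS
  have mix2 : MixOrd (μ.prod μ) (Prod.map S S) 1 := mix_prod μ μ S S hS hS hmix hmix
  have erg2 : Ergodic (Prod.map S S) (μ.prod μ) := ergodic_of_mix _ _ hS2 mix2
  -- the equation for almost all `c` and almost all `a`
  have h1 : ∀ᵐ c ∂μ, ∀ᵐ a ∂μ, F (a, c) = imC (φ a) (φ c) (F (S a, S c)) := by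
    have h2 : ∀ᵐ z ∂(μ.prod μ), F z.swap =
        imC (φ z.swap.1) (φ z.swap.2) (F (S z.swap.1, S z.swap.2)) :=
      (Measure.measurePreserving_swap (μ := μ) (ν := μ)).quasiMeasurePreserving.ae heq
    exact Measure.ae_ae_of_ae_prod h2
  have h3 : ∀ᵐ p ∂(μ.prod μ), (∀ᵐ a ∂μ, F (a, p.1) = imC (φ a) (φ p.1) (F (S a, S p.1))) ∧
      ∀ᵐ a ∂μ, F (a, p.2) = imC (φ a) (φ p.2) (F (S a, S p.2)) := by
    have e1 := (Measure.quasiMeasurePreserving_fst (μ := μ) (ν := μ)).ae h1
    have e2 := (Measure.quasiMeasurePreserving_snd (μ := μ) (ν := μ)).ae h1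
    filter_upwards [e1, e2] with p a b
    exact ⟨a, b⟩
  -- invariance of the measures
  have h4 : ∀ᵐ p ∂(μ.prod μ), ∀ g g' : V ≃ₗ[K] V, (φ p.1).trans g = g'.trans (φ p.2) →
      μ.real (ZI_D F g p) = μ.real (ZI_D F g' (Prod.map S S p)) := by
    filter_upwards [h3] with p hp g g' hg
    have e1 : ZI_D F g p =ᵐ[μ] S ⁻¹' (ZI_D F g' (Prod.map S S p)) := by
      filter_upwards [hp.1, hp.2] with a ha hb
      apply propext
      show imF g (F (a, p.1)) ≠ F (a, p.2) ↔ imF g' (F (S a, S p.1)) ≠ F (S a, S p.2)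
      rw [ha, hb]
      exact not_congr (ZI_aux_iff g g' (φ a) (φ p.1) (φ p.2) hg _ _)
    rw [measureReal_congr e1]
    unfold Measure.real
    rw [hS.measure_preimage (ZI_aux_slice F hF g' _).nullMeasurableSet]
  have h5 : ∀ n : ℕ, ∀ᵐ p ∂(μ.prod μ), ∃ g : V ≃ₗ[K] V,
      μ.real (ZI_D F g p) < 1 / ((n : ℝ) + 1) := by
    intro n
    set ε : ℝ := 1 / ((n : ℝ) + 1) with hε
    have hε0 : 0 < ε := by positivity
    set E : Set (X × X) := {p | ∃ g : V ≃ₗ[K] V, μ.real (ZI_D F g p) < ε} with hE
    have hEm : MeasurableSet E := ZI_aux_E μ F hF ε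
    have hinv : (Prod.map S S) ⁻¹' E =ᵐ[μ.prod μ] E := by
      filter_upwards [h4] with p hp
      apply propext
      show (∃ g : V ≃ₗ[K] V, μ.real (ZI_D F g (Prod.map S S p)) < ε) ↔
        ∃ g : V ≃ₗ[K] V, μ.real (ZI_D F g p) < ε
      constructor
      · rintro ⟨g', hg'⟩
        refine ⟨(φ p.1).symm.trans (g'.trans (φ p.2)), ?_⟩
        rw [hp _ g' (by
          ext x
          simp)]
        exact hg'
      · rintro ⟨g, hg⟩
        refine ⟨(φ p.1).trans (g.trans (φ p.2).symm), ?_⟩
        rw [← hp g _ (by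
          ext x
          simp)]
        exact hg
    rcases erg2.quasiErgodic.ae_mem_or_ae_notMem₀ hEm.nullMeasurableSet hinv with h | h
    · exact h
    · exfalso
      have hcl := close_pairs μ F hF ε hε0
      apply hcl
      have hsub : {p : X × X | μ.real {a | F (a, p.1) ≠ F (a, p.2)} < ε} ⊆ E := by
        intro p hp
        refine ⟨LinearEquiv.refl K V, ?_⟩
        have e1 : ZI_D F (LinearEquiv.refl K V) p = {a | F (a, p.1) ≠ F (a, p.2)} := by
          unfold ZI_D
          simp only [ZI_aux_one]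
        rw [e1]
        exact hp
      have h0 : (μ.prod μ) E = 0 := by
        have := ae_iff.1 h
        simpa using this
      exact measure_mono_null hsub h0
  have h6 := ae_all_iff.2 h5
  filter_upwards [h6] with p hp ε hε
  obtain ⟨n, hn⟩ := exists_nat_one_div_lt hε
  obtain ⟨g, hg⟩ := hp n
  exact ⟨g, hg.trans hn⟩

end H567MM
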