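import Pool.Agent.H567R2.MNF.M2
import Pool.Agent.H567R2.MO.Defs
import Pool.Agent.H567R2.MOF.VS

/-! VM: the maximal virtually constant subobject (helper493) -/

namespace H567MM

open MeasureTheory Filter Topology H567MM

theorem VM_zero {X K V : Type*} [MeasurableSpace X] (μ : Measure X) (S : X → X)
    [Field K] [AddCommGroup V] [Module K V] (φ : X → (V ≃ₗ[K] V)) :
    VC μ S φ 0 (fun _ => (0 : (Fin 0 → K) →ₗ[K] V)) := by
  refine ⟨fun v v' => MeasurableSet.const _, Filter.Eventually.of_forall fun x =>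
    Function.injective_of_subsingleton _, ⊥, 1, inferInstance, ?_,
    Filter.Eventually.of_forall fun x => ⟨1, Subgroup.one_mem _, fun v => ?_⟩⟩
  · intro h
    rw [one_mul, inv_one, mul_one]
  · simp

theorem VM_le {X K V : Type*} [MeasurableSpace X] (μ : Measure X) [IsProbabilityMeasure μ]
    (S : X → X) [Field K] [AddCommGroup V] [Module K V] [FiniteDimensional K V]
    (φ : X → (V ≃ₗ[K] V)) (r : ℕ) (g : X → ((Fin r → K) →ₗ[K] V)) (h : VC μ S φ r g) :
    r ≤ Module.finrank K V := by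
  obtain ⟨x, hx⟩ := h.2.1.exists
  have h1 := LinearMap.finrank_le_finrank_of_injective hx
  rwa [Module.finrank_fin_fun] at h1

theorem VC_max {X K V : Type*} [MeasurableSpace X] (μ : Measure X) [IsProbabilityMeasure μ]
    (S : X → X) (hS : MeasurePreserving S μ μ) (hmix : MixOrd μ S 1) [Field K]
    [AddCommGroup V] [Module K V] [FiniteDimensional K V] [Countable V] [Countable K]
    (φ : X → (V ≃ₗ[K] V)) (hφ : ∀ v v' : V, MeasurableSet {x | φ x v = v'}) :
    ∃ (r : ℕ) (g : X → ((Fin r → K) →ₗ[K] V)), VC μ S φ r g ∧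
      ∀ (r' : ℕ) (g' : X → ((Fin r' → K) →ₗ[K] V)), VC μ S φ r' g' →
        ∀ᵐ x ∂μ, LinearMap.range (g' x) ≤ LinearMap.range (g x) := by
  classical
  let P : ℕ → Prop := fun r => ∃ g : X → ((Fin r → K) →ₗ[K] V), VC μ S φ r g
  have hP0 : P 0 := ⟨_, VM_zero μ S φ⟩
  have hPs : P (Nat.findGreatest P (Module.finrank K V)) :=
    Nat.findGreatest_spec (Nat.zero_le _) hP0
  have hPm : ∀ r, P r → r ≤ Nat.findGreatest P (Module.finrank K V) := by
    intro r hr
    obtain ⟨g, hg⟩ := hr
    exact Nat.le_findGreatest (VM_le μ S φ r g hg) ⟨g, hg⟩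
  obtain ⟨g, hg⟩ := hPs
  refine ⟨_, g, hg, fun r' g' hg' => ?_⟩
  obtain ⟨r'', g'', hg'', hr⟩ := H567MM.VC_sup μ S hS hmix φ hφ _ _ g g' hg hg'
  have hle := hPm r'' ⟨g'', hg''⟩
  filter_upwards [hr, hg.2.1, hg''.2.1] with x hx h1 h2
  have e1 : Module.finrank K (LinearMap.range (g x)) =
      Nat.findGreatest P (Module.finrank K V) := by
    rw [LinearMap.finrank_range_of_inj h1, Module.finrank_fin_fun]
  have e2 : Module.finrank K (LinearMap.range (g'' x)) = r'' := by
    rw [LinearMap.finrank_range_of_inj h2, Module.finrank_fin_fun]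
  have e3 : LinearMap.range (g x) ≤ LinearMap.range (g'' x) := by
    rw [hx]; exact le_sup_left
  have e4 : LinearMap.range (g x) = LinearMap.range (g'' x) :=
    Submodule.eq_of_le_of_finrank_le e3 (by rw [e1, e2]; exact hle)
  rw [e4, hx]
  exact le_sup_right

end H567MM
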