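import Pool.Agent.H567R2.MNF.M2
import Pool.Agent.H567R2.MO.Defs
import Pool.Agent.H567R2.MOF.VM
import Pool.Agent.H567R2.MOF.GS
import Pool.Agent.H567R2.MOF.CF
import Pool.Agent.H567R2.MOF.VF

/-! Task SF: the theorem for vector spaces. -/

namespace H567MM

open MeasureTheory Filter Topology

theorem SF_aux_gaps {k G : ℕ} (n : Fin (k + 1) → ℕ)
    (h : ∀ j : Fin k, n j.castSucc + G ≤ n j.succ) : Gaps G n := by
  have hmono : Monotone n :=
    Fin.monotone_iff_le_succ.2 (fun j => le_trans (Nat.le_add_right _ _) (h j))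
  intro i j hij
  obtain ⟨j', rfl⟩ := Fin.exists_succ_eq.2 (Fin.ne_zero_of_lt hij)
  have hle : i ≤ j'.castSucc := Fin.le_castSucc_iff.2 hij
  exact le_trans (Nat.add_le_add_right (hmono hle) G) (h j')

theorem SF_aux_key {X K V : Type*} [MeasurableSpace X] (μ : Measure X) [IsProbabilityMeasure μ]
    (S : X → X) (hS : MeasurePreserving S μ μ) (hmix : MixOrd μ S 1) [Field K] [Countable K]
    [AddCommGroup V] [Module K V] [FiniteDimensional K V] [Countable V] (φ : X → (V ≃ₗ[K] V))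
    (hφ : ∀ v v' : V, MeasurableSet {x | φ x v = v'})
    (k : ℕ) (hk : MixOrd μ S k) (m : Fin (k + 1) → V)
    (r : ℕ) (g : X → ((Fin r → K) →ₗ[K] V))
    (hg : VC μ S φ r g)
    (hmax : ∀ (r' : ℕ) (g' : X → ((Fin r' → K) →ₗ[K] V)), VC μ S φ r' g' →
        ∀ᵐ x ∂μ, LinearMap.range (g' x) ≤ LinearMap.range (g x)) (δ : ℝ) (hδ : 0 < δ)
    (j₀ : Fin (k + 1)) :
    ∃ G : ℕ, ∀ n : Fin (k + 1) → ℕ, n 0 = 0 → (∀ j : Fin k, n j.castSucc + G ≤ n j.succ) →
      μ.real {x | m j₀ ∉ LinearMap.range (g (S^[n j₀] x)) ∧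
        ∑ j, coc S φ (n j) x (m j) = 0} < δ := by
  classical
  have hAm : MeasurableSet {x | m j₀ ∉ LinearMap.range (g x)} := by
    have h1 : {x | m j₀ ∉ LinearMap.range (g x)} =
        (⋃ v : Fin r → K, {x | g x v = m j₀})ᶜ := by
      ext x
      simp [LinearMap.mem_range]
    rw [h1]
    exact (MeasurableSet.iUnion fun v => hg.1 v (m j₀)).compl
  by_contra hcon
  push Not at hcon
  obtain ⟨c, hc, hcc⟩ := coll_of_rel μ S hS hmix φ hφ k hk m
    (fun j => if j = j₀ then {x | m j₀ ∉ LinearMap.range (g x)} else Set.univ)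
    (fun j => by
      by_cases hj : j = j₀
      · simp only [hj, if_true]; exact hAm
      · simp only [hj, if_false]; exact MeasurableSet.univ) δ hδ
    (fun G => by
      obtain ⟨n, hn0, hn, hle⟩ := hcon G
      refine ⟨n, hn0, hn, le_trans hle ?_⟩
      apply measureReal_mono _ (measure_ne_top _ _)
      rintro x ⟨hx1, hx2⟩
      refine ⟨fun j => ?_, hx2⟩
      by_cases hj : j = j₀
      · subst hj
        simpa using hx1
      · simp [hj]) j₀
  simp only [if_true] at hcc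
  obtain ⟨r', g', hg', hne⟩ := vc_of_coll μ S hS hmix φ hφ (m j₀) _ hAm c hc hcc
  apply hne
  rw [measure_eq_zero_iff_ae_notMem]
  filter_upwards [hmax r' g' hg'] with x hx
  rintro ⟨h1, h2⟩
  exact h1 (hx h2)

/-- SF -/
theorem small_field {X K V : Type*} [MeasurableSpace X] (μ : Measure X) [IsProbabilityMeasure μ]
    (S : X → X) (hS : MeasurePreserving S μ μ) (hmix : MixOrd μ S 1) [Field K] [Countable K]
    [AddCommGroup V] [Module K V] [FiniteDimensional K V] [Countable V] (φ : X → (V ≃ₗ[K] V))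
    (hφ : ∀ v v' : V, MeasurableSet {x | φ x v = v'}) (htr : ∀ v : V, v ≠ 0 → NTrans μ S φ v)
    (k : ℕ) (hk : MixOrd μ S k) (m : Fin (k + 1) → V) (hm : m ≠ 0) (ε : ℝ) (hε : 0 < ε) :
    ∃ G : ℕ, ∀ n : Fin (k + 1) → ℕ, n 0 = 0 → (∀ j : Fin k, n j.castSucc + G ≤ n j.succ) →
      μ.real {x | ∑ j, coc S φ (n j) x (m j) = 0} < ε := by
  classical
  obtain ⟨r, g, hg, hmax⟩ := VC_max μ S hS hmix φ hφ
  have hδ : 0 < ε / (2 * ((k : ℝ) + 1)) := by positivity
  choose G hG using SF_aux_key μ S hS hmix φ hφ k hk m r g hg hmax _ hδ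
  obtain ⟨G₀, hG₀⟩ := small_vc μ S hS φ hφ htr r g hg m hm (ε / 2) (half_pos hε)
  refine ⟨max G₀ (Finset.univ.sup G), fun n hn0 hn => ?_⟩
  have hn1 : ∀ j : Fin k, n j.castSucc + G₀ ≤ n j.succ := fun j =>
    le_trans (Nat.add_le_add_left (le_max_left _ _) _) (hn j)
  have hn2 : ∀ j₀, ∀ j : Fin k, n j.castSucc + G j₀ ≤ n j.succ := fun j₀ j =>
    le_trans (Nat.add_le_add_left
      (le_trans (Finset.le_sup (f := G) (Finset.mem_univ j₀)) (le_max_right _ _)) _) (hn j)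
  have h1 := hG₀ n (SF_aux_gaps n hn1)
  have h2 : ∀ j₀, μ.real {x | m j₀ ∉ LinearMap.range (g (S^[n j₀] x)) ∧
        ∑ j, coc S φ (n j) x (m j) = 0} < ε / (2 * ((k : ℝ) + 1)) := fun j₀ =>
    hG j₀ n hn0 (hn2 j₀)
  have hsub : {x | ∑ j, coc S φ (n j) x (m j) = 0} ⊆
      {x | (∀ j, m j ∈ LinearMap.range (g (S^[n j] x))) ∧
        ∑ j, coc S φ (n j) x (m j) = 0} ∪
      ⋃ j₀ : Fin (k + 1), {x | m j₀ ∉ LinearMap.range (g (S^[n j₀] x)) ∧
        ∑ j, coc S φ (n j) x (m j) = 0} := by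
    intro x hx
    by_cases hall : ∀ j, m j ∈ LinearMap.range (g (S^[n j] x))
    · exact Or.inl ⟨hall, hx⟩
    · right
      push Not at hall
      obtain ⟨j, hj⟩ := hall
      exact Set.mem_iUnion.2 ⟨j, hj, hx⟩
  calc μ.real {x | ∑ j, coc S φ (n j) x (m j) = 0}
      ≤ μ.real ({x | (∀ j, m j ∈ LinearMap.range (g (S^[n j] x))) ∧
        ∑ j, coc S φ (n j) x (m j) = 0} ∪
      ⋃ j₀ : Fin (k + 1), {x | m j₀ ∉ LinearMap.range (g (S^[n j₀] x)) ∧
        ∑ j, coc S φ (n j) x (m j) = 0}) := measureReal_mono hsub (measure_ne_top _ _)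
    _ ≤ μ.real {x | (∀ j, m j ∈ LinearMap.range (g (S^[n j] x))) ∧
        ∑ j, coc S φ (n j) x (m j) = 0} +
      μ.real (⋃ j₀ : Fin (k + 1), {x | m j₀ ∉ LinearMap.range (g (S^[n j₀] x)) ∧
        ∑ j, coc S φ (n j) x (m j) = 0}) := measureReal_union_le _ _
    _ ≤ μ.real {x | (∀ j, m j ∈ LinearMap.range (g (S^[n j] x))) ∧
        ∑ j, coc S φ (n j) x (m j) = 0} +
      ∑ j₀ : Fin (k + 1), μ.real {x | m j₀ ∉ LinearMap.range (g (S^[n j₀] x)) ∧
        ∑ j, coc S φ (n j) x (m j) = 0} := by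
        gcongr
        exact measureReal_iUnion_fintype_le _
    _ < ε / 2 + ∑ _j₀ : Fin (k + 1), ε / (2 * ((k : ℝ) + 1)) := by
        apply add_lt_add_of_lt_of_le h1
        exact Finset.sum_le_sum fun j₀ _ => (h2 j₀).le
    _ = ε := by
        rw [Finset.sum_const, Finset.card_univ, Fintype.card_fin, nsmul_eq_mul]
        push_cast
        field_simp
        ring

end H567MM
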